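import Pool.Agent.H49.G.R_seed8.H442R2.EHI.PntErr

set_option autoImplicit false

/-!
# Sums of the Moebius function over `d`, and over `log d / d`
-/

open Finset Filter ArithmeticFunction
open scoped ArithmeticFunction

namespace Pool.Agent.W66

/-- Abel's inequality. -/
lemma abel_anti (f w : ℕ → ℝ) (a b : ℕ) (G : ℝ) (hG : 0 ≤ G)
    (hf : ∀ m, a ≤ m → m ≤ b → |∑ n ∈ Ioc a m, f n| ≤ G)
    (hw : ∀ n, a < n → n < b → w (n + 1) ≤ w n) (W : ℝ) (hW0 : 0 ≤ W)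
    (hw0 : ∀ n, a < n → n ≤ b → 0 ≤ w n) (hW : ∀ n, a < n → n ≤ b → w n ≤ W) :
    |∑ n ∈ Ioc a b, f n * w n| ≤ G * W := by
  rcases le_or_gt b a with hab | hab
  · rw [Ioc_eq_empty (by omega)]
    simp only [sum_empty, abs_zero]
    positivity
  have key : ∀ k, a + 1 + k ≤ b →
      |∑ n ∈ Ioc a (a + 1 + k), f n * w n - (∑ n ∈ Ioc a (a + 1 + k), f n) * w (a + 1 + k)| ≤
        G * (w (a + 1) - w (a + 1 + k)) := by
    intro k
    induction k with
    | zero =>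
      intro _
      simp
    | succ k ih =>
      intro hk
      have h1 := ih (by omega)
      rw [show a + 1 + (k + 1) = (a + 1 + k) + 1 by ring]
      rw [sum_Ioc_succ_top (by omega), sum_Ioc_succ_top (by omega)]
      have h2 := hf (a + 1 + k) (by omega) (by omega)
      have h3 := hw (a + 1 + k) (by omega) (by omega)
      have e : ∑ n ∈ Ioc a (a + 1 + k), f n * w n + f (a + 1 + k + 1) * w (a + 1 + k + 1) -
          (∑ n ∈ Ioc a (a + 1 + k), f n + f (a + 1 + k + 1)) * w (a + 1 + k + 1) =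
          (∑ n ∈ Ioc a (a + 1 + k), f n * w n -
            (∑ n ∈ Ioc a (a + 1 + k), f n) * w (a + 1 + k)) +
          (∑ n ∈ Ioc a (a + 1 + k), f n) * (w (a + 1 + k) - w (a + 1 + k + 1)) := by ring
      rw [e]
      refine (abs_add_le _ _).trans ?_
      have h4 : |(∑ n ∈ Ioc a (a + 1 + k), f n) * (w (a + 1 + k) - w (a + 1 + k + 1))| ≤
          G * (w (a + 1 + k) - w (a + 1 + k + 1)) := by
        rw [abs_mul, abs_of_nonneg (sub_nonneg.2 h3)]
        exact mul_le_mul_of_nonneg_right h2 (sub_nonneg.2 h3)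
      linarith
  have h1 := key (b - a - 1) (by omega)
  rw [show a + 1 + (b - a - 1) = b by omega] at h1
  have h2 := hf b (by omega) le_rfl
  have h3 := hw0 b hab le_rfl
  have h4 := hW (a + 1) (by omega) (by omega)
  have h5 : |(∑ n ∈ Ioc a b, f n) * w b| ≤ G * w b := by
    rw [abs_mul, abs_of_nonneg h3]
    exact mul_le_mul_of_nonneg_right h2 h3
  calc |∑ n ∈ Ioc a b, f n * w n| =
        |(∑ n ∈ Ioc a b, f n * w n - (∑ n ∈ Ioc a b, f n) * w b) +
          (∑ n ∈ Ioc a b, f n) * w b| := by rw [sub_add_cancel]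
    _ ≤ G * (w (a + 1) - w b) + G * w b := (abs_add_le _ _).trans (add_le_add h1 h5)
    _ = G * w (a + 1) := by ring
    _ ≤ _ := mul_le_mul_of_nonneg_left h4 hG

lemma sum_Ioc_zero_split (f : ℕ → ℝ) {a m : ℕ} (h : a ≤ m) :
    ∑ n ∈ Ioc a m, f n = ∑ n ∈ Ioc 0 m, f n - ∑ n ∈ Ioc 0 a, f n := by
  rw [← sum_Ioc_consecutive f (Nat.zero_le a) h]
  ring

/-- the sum against fractional parts -/
lemma frac_sum (f : ℕ → ℝ) (N K : ℕ) (F G : ℝ) (hF : 0 ≤ F) (hG : 0 ≤ G)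
    (hf : ∀ n, 0 < n → n ≤ N → |f n| ≤ F)
    (hS : ∀ m, m ≤ N → |∑ n ∈ Ioc 0 m, f n| ≤ G) :
    |∑ n ∈ Ioc 0 N, f n * ((N : ℝ) / n - ((N / n : ℕ) : ℝ))| ≤
      F * (N / (K + 1)) + 4 * (K + 1) * G := by
  set a := N / (K + 1) with ha
  have haN : a ≤ N := Nat.div_le_self _ _
  rw [← sum_Ioc_consecutive _ (Nat.zero_le a) haN]
  refine (abs_add_le _ _).trans (add_le_add ?_ ?_)
  · refine (abs_sum_le_sum_abs _ _).trans ?_
    have h1 : ∀ n ∈ Ioc 0 a, |f n * ((N : ℝ) / n - ((N / n : ℕ) : ℝ))| ≤ F := by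
      intro n hn
      rw [mem_Ioc] at hn
      have h2 := hf n hn.1 (hn.2.trans haN)
      have hn0 : (0 : ℝ) < n := by exact_mod_cast hn.1
      have h3 : ((N / n : ℕ) : ℝ) ≤ (N : ℝ) / n := Nat.cast_div_le
      have h4 : (N : ℝ) / n - 1 ≤ ((N / n : ℕ) : ℝ) := by
        have : (N : ℝ) / n < ((N / n : ℕ) : ℝ) + 1 := by
          rw [div_lt_iff₀ hn0]
          exact_mod_cast Nat.lt_mul_of_div_lt (Nat.lt_succ_self _) hn.1
        linarith
      rw [abs_mul]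
      calc |f n| * |(N : ℝ) / n - ((N / n : ℕ) : ℝ)| ≤ F * 1 := by
            apply mul_le_mul h2 _ (abs_nonneg _) hF
            rw [abs_le]
            constructor <;> linarith
        _ = F := mul_one _
    refine (sum_le_sum h1).trans ?_
    rw [sum_const, Nat.card_Ioc, Nat.sub_zero, nsmul_eq_mul, mul_comm]
    apply mul_le_mul_of_nonneg_left _ hF
    rw [ha]
    have : ((N / (K + 1) : ℕ) : ℝ) ≤ (N : ℝ) / ((K + 1 : ℕ) : ℝ) := Nat.cast_div_le
    simpa using this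
  · have hS2 : ∀ m, a ≤ m → m ≤ N → |∑ n ∈ Ioc a m, f n| ≤ 2 * G := by
      intro m h1 h2
      rw [sum_Ioc_zero_split f h1]
      refine (abs_sub _ _).trans ?_
      linarith [hS m h2, hS a haN]
    have hlt : ∀ n, a < n → N / n ≤ K + 1 ∧ (N : ℝ) / n ≤ K + 1 := by
      intro n hn
      have hn0 : 0 < n := lt_of_le_of_lt (Nat.zero_le _) hn
      have hn0' : (0 : ℝ) < n := by exact_mod_cast hn0
      have h1 : N < (K + 1) * n := by
        have := Nat.lt_mul_of_div_lt hn (Nat.succ_pos K)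
        rw [mul_comm]
        simpa using this
      constructor
      · exact (Nat.div_lt_of_lt_mul (by rw [mul_comm]; exact h1)).le
      · rw [div_le_iff₀ hn0']
        exact_mod_cast h1.le
    have h1 := abel_anti f (fun n => (N : ℝ) / n) a N (2 * G) (by positivity) hS2
      (by
        intro n h1 h2
        have : (0 : ℝ) < n := by exact_mod_cast (lt_of_le_of_lt (Nat.zero_le _) h1 : 0 < n)
        push_cast
        apply div_le_div_of_nonneg_left (by positivity) this (by linarith)) (K + 1) (by positivity)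
      (by intro n _ _; positivity) (fun n h1 _ => (hlt n h1).2)
    have h2 := abel_anti f (fun n => ((N / n : ℕ) : ℝ)) a N (2 * G) (by positivity) hS2
      (by
        intro n h1 h2
        exact_mod_cast Nat.div_le_div_left (Nat.le_succ n)
          (lt_of_le_of_lt (Nat.zero_le _) h1)) (K + 1) (by positivity)
      (by intro n _ _; positivity) (fun n h1 _ => by exact_mod_cast (hlt n h1).1)
    have e : ∑ n ∈ Ioc a N, f n * ((N : ℝ) / n - ((N / n : ℕ) : ℝ)) =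
        ∑ n ∈ Ioc a N, f n * ((N : ℝ) / n) - ∑ n ∈ Ioc a N, f n * ((N / n : ℕ) : ℝ) := by
      rw [← sum_sub_distrib]
      exact sum_congr rfl fun n _ => by ring
    rw [e]
    refine (abs_sub _ _).trans ?_
    linarith

/-- `√N ≤ C N / log^V N` -/
lemma sqrt_le_div_log (V : ℕ) : ∃ C : ℝ, 0 < C ∧ ∀ N : ℕ, 2 ≤ N →
    √(N : ℝ) ≤ C * (N / Real.log N ^ V) := by
  obtain ⟨C2, hC2, h2⟩ := Pool.Agent.H442R2.EHI.PntErrAux.log_pow_le V
  refine ⟨C2, hC2, fun N hN => ?_⟩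
  have hN0 : (0 : ℝ) < N := by exact_mod_cast (by omega : 0 < N)
  have hL : 0 < Real.log N := Real.log_pos (by exact_mod_cast (by omega : 1 < N))
  have hss := Real.mul_self_sqrt hN0.le
  rw [← mul_div_assoc, le_div_iff₀ (by positivity)]
  calc √(N : ℝ) * Real.log N ^ V ≤ √(N : ℝ) * (C2 * √(N : ℝ)) := by
        gcongr; exact h2 N (by omega)
    _ = C2 * (√(N : ℝ) * √(N : ℝ)) := by ring
    _ = _ := by rw [hss]

/-- cancellation to any power of the logarithm -/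
def Canc (f : ℕ → ℝ) : Prop := ∀ V : ℕ, ∃ C : ℝ, 0 < C ∧ ∀ N : ℕ, 2 ≤ N → ∀ m ≤ N,
  |∑ n ∈ Ioc 0 m, f n| ≤ C * (N / Real.log N ^ V)

lemma log2_lower {N : ℕ} (hN : 2 ≤ N) : 1 / 2 ≤ Real.log N := by
  have h1 := Real.log_two_gt_d9
  have h2 : Real.log 2 ≤ Real.log N := Real.log_le_log (by norm_num) (by exact_mod_cast hN)
  linarith

lemma canc_mu : Canc fun n => ((moebius n : ℤ) : ℝ) := by
  intro V
  obtain ⟨N₀, h⟩ := Pool.Agent.H442R2.EHI.PntErrAux.mertMU V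
  obtain ⟨C1, hC1, h1⟩ := sqrt_le_div_log V
  refine ⟨2 ^ (V + 1) + (N₀ + 1) * C1, by positivity, fun N hN m hm => ?_⟩
  have hN0 : (0 : ℝ) < N := by exact_mod_cast (by omega : 0 < N)
  have hN1 : (1 : ℝ) ≤ N := by exact_mod_cast (by omega : 1 ≤ N)
  have hL : 0 < Real.log N := Real.log_pos (by exact_mod_cast (by omega : 1 < N))
  have hs1 : 1 ≤ √(N : ℝ) := by rw [Real.one_le_sqrt]; exact hN1
  have htriv : |∑ n ∈ Ioc 0 m, ((moebius n : ℤ) : ℝ)| ≤ m := by
    refine (abs_sum_le_sum_abs _ _).trans ?_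
    have : ∀ n ∈ Ioc 0 m, |((moebius n : ℤ) : ℝ)| ≤ 1 := fun n _ => by
      exact_mod_cast abs_moebius_le_one
    refine (sum_le_sum this).trans ?_
    simp
  have hpos : 0 ≤ (2 : ℝ) ^ (V + 1) * (N / Real.log N ^ V) := by positivity
  have hsq := h1 N hN
  have hA : (N₀ + 1 : ℝ) * √(N : ℝ) ≤ (N₀ + 1) * (C1 * (N / Real.log N ^ V)) := by gcongr
  have hB : 0 ≤ (N₀ + 1 : ℝ) * √(N : ℝ) := by positivity
  have goal : ((2 : ℝ) ^ (V + 1) + (N₀ + 1) * C1) * (N / Real.log N ^ V) =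
      (2 : ℝ) ^ (V + 1) * (N / Real.log N ^ V) + (N₀ + 1) * (C1 * (N / Real.log N ^ V)) := by ring
  rw [goal]
  rcases lt_or_ge (m + 1) N₀ with h3 | h3
  · have h4 : (m : ℝ) ≤ N₀ := by exact_mod_cast (by omega : m ≤ N₀)
    have : (m : ℝ) ≤ (N₀ + 1 : ℝ) * √(N : ℝ) := by nlinarith
    linarith
  rcases lt_or_ge ((m : ℝ) + 1) (√(N : ℝ)) with h4 | h4
  · have : (m : ℝ) ≤ (N₀ + 1 : ℝ) * √(N : ℝ) := by
      have : (0 : ℝ) ≤ N₀ := by positivity
      nlinarith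
    linarith
  have h5 := h m h3
  have h6 : Real.log N / 2 ≤ Real.log ((m : ℝ) + 1) := by
    have := Real.log_le_log (by positivity) h4
    rw [Real.log_sqrt hN0.le] at this
    exact this
  have h7 : ((m : ℝ) + 1) / (Real.log ((m : ℝ) + 1)) ^ V ≤
      (2 : ℝ) ^ (V + 1) * (N / Real.log N ^ V) := by
    calc ((m : ℝ) + 1) / (Real.log ((m : ℝ) + 1)) ^ V ≤ (2 * N) / (Real.log N / 2) ^ V := by
          have : (m : ℝ) ≤ N := by exact_mod_cast hm
          gcongr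
          linarith
      _ = _ := by
          rw [div_pow, pow_succ]
          field_simp
  have h8 : ∑ n ∈ Ioc 0 m, ((moebius : ArithmeticFunction ℤ) : ArithmeticFunction ℝ) n =
      ∑ n ∈ Ioc 0 m, ((moebius n : ℤ) : ℝ) := rfl
  rw [h8] at h5
  linarith

lemma canc_mul_log {f : ℕ → ℝ} (hf : Canc f) : Canc fun n => f n * Real.log n := by
  intro V
  obtain ⟨C, hC, h⟩ := hf (V + 1)
  refine ⟨2 * C, by positivity, fun N hN m hm => ?_⟩
  have hN0 : (0 : ℝ) < N := by exact_mod_cast (by omega : 0 < N)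
  have hL : 0 < Real.log N := Real.log_pos (by exact_mod_cast (by omega : 1 < N))
  have h1 := abel_anti f (fun n => Real.log N - Real.log n) 0 m (C * (N / Real.log N ^ (V + 1)))
    (by positivity) (fun k _ hk => h N hN k (hk.trans hm))
    (by
      intro n h1 _
      have h2 : (0 : ℝ) < n := by exact_mod_cast h1
      have := Real.log_le_log h2 (show (n : ℝ) ≤ ((n + 1 : ℕ) : ℝ) by push_cast; linarith)
      linarith) (Real.log N) hL.le
    (by
      intro n h1 h2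
      have h3 : (0 : ℝ) < n := by exact_mod_cast h1
      have := Real.log_le_log h3 (show (n : ℝ) ≤ (N : ℝ) by exact_mod_cast h2.trans hm)
      linarith)
    (by
      intro n h1 _
      have := Real.log_nonneg (show (1 : ℝ) ≤ (n : ℝ) by exact_mod_cast h1)
      linarith)
  have h2 := h N hN m hm
  have e : ∑ n ∈ Ioc 0 m, f n * Real.log n =
      Real.log N * ∑ n ∈ Ioc 0 m, f n - ∑ n ∈ Ioc 0 m, f n * (Real.log N - Real.log n) := by
    rw [mul_sum, ← sum_sub_distrib]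
    exact sum_congr rfl fun n _ => by ring
  rw [e]
  refine (abs_sub _ _).trans ?_
  rw [abs_mul, abs_of_pos hL]
  have e2 : C * (N / Real.log N ^ (V + 1)) * Real.log N = C * (N / Real.log N ^ V) := by
    rw [pow_succ]; field_simp
  nlinarith

lemma frac_bound {f : ℕ → ℝ} (hf : Canc f) {C' : ℝ} (hC' : 0 < C')
    (hf1 : ∀ n, 0 < n → |f n| ≤ C' * (1 + Real.log n)) (B : ℕ) :
    ∃ C : ℝ, 0 < C ∧ ∀ N : ℕ, 2 ≤ N →
      |∑ n ∈ Ioc 0 N, f n * ((N : ℝ) / n - ((N / n : ℕ) : ℝ))| ≤ C * (N / Real.log N ^ B) := by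
  obtain ⟨C, hC, h⟩ := hf (2 * B + 1)
  refine ⟨3 * C' + 4 * C * 2 ^ (B + 2), by positivity, fun N hN => ?_⟩
  have hN0 : (0 : ℝ) < N := by exact_mod_cast (by omega : 0 < N)
  have hL : 0 < Real.log N := Real.log_pos (by exact_mod_cast (by omega : 1 < N))
  have hL2 := log2_lower hN
  set L := Real.log N with hLdef
  set K := ⌊L ^ (B + 1)⌋₊ with hK
  have hK1 : L ^ (B + 1) ≤ (K : ℝ) + 1 := (Nat.lt_floor_add_one _).le
  have hK2 : (K : ℝ) ≤ L ^ (B + 1) := Nat.floor_le (by positivity)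
  have h1 := frac_sum f N K (C' * (1 + L)) (C * (N / L ^ (2 * B + 1))) (by positivity)
    (by positivity) (by
      intro n hn hn2
      refine (hf1 n hn).trans ?_
      have : Real.log n ≤ L := Real.log_le_log (by exact_mod_cast hn) (by exact_mod_cast hn2)
      gcongr) (h N hN)
  refine h1.trans ?_
  have hP : 0 < L ^ B := by positivity
  have h2 : C' * (1 + L) * (N / ((K : ℝ) + 1)) ≤ 3 * C' * (N / L ^ B) := by
    calc C' * (1 + L) * (N / ((K : ℝ) + 1)) ≤ C' * (3 * L) * (N / L ^ (B + 1)) := by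
          gcongr
          linarith
      _ = _ := by rw [pow_succ]; field_simp
  have h3 : (K : ℝ) + 1 ≤ 2 ^ (B + 2) * L ^ (B + 1) := by
    have h4 : (1 / 2 : ℝ) ^ (B + 1) ≤ L ^ (B + 1) := by gcongr
    have h5 : (1 : ℝ) ≤ 2 ^ (B + 1) * L ^ (B + 1) := by
      calc (1 : ℝ) = 2 ^ (B + 1) * (1 / 2 : ℝ) ^ (B + 1) := by
            rw [← mul_pow]; norm_num
        _ ≤ _ := by gcongr
    have h6 : L ^ (B + 1) ≤ 2 ^ (B + 1) * L ^ (B + 1) := by
      have : (1 : ℝ) ≤ 2 ^ (B + 1) := one_le_pow₀ (by norm_num)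
      have : 0 < L ^ (B + 1) := by positivity
      nlinarith
    have h7 : (2 : ℝ) ^ (B + 2) * L ^ (B + 1) = 2 ^ (B + 1) * L ^ (B + 1) + 2 ^ (B + 1) * L ^ (B + 1) := by
      rw [pow_succ 2 (B + 1)]; ring
    linarith
  have h4 : 4 * ((K : ℝ) + 1) * (C * (N / L ^ (2 * B + 1))) ≤ 4 * C * 2 ^ (B + 2) * (N / L ^ B) := by
    calc 4 * ((K : ℝ) + 1) * (C * (N / L ^ (2 * B + 1))) ≤
          4 * (2 ^ (B + 2) * L ^ (B + 1)) * (C * (N / L ^ (2 * B + 1))) := by gcongr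
      _ = _ := by
          have : L ^ (2 * B + 1) = L ^ (B + 1) * L ^ B := by rw [← pow_add]; congr 1; ring
          rw [this]
          field_simp
  calc _ ≤ 3 * C' * (N / L ^ B) + 4 * C * 2 ^ (B + 2) * (N / L ^ B) := add_le_add h2 h4
    _ = _ := by ring

/-- the interchange of summation -/
lemma sum_floor (f : ℕ → ℝ) (N : ℕ) :
    ∑ n ∈ Ioc 0 N, f n * ((N / n : ℕ) : ℝ) = ∑ n ∈ Ioc 0 N, ∑ d ∈ n.divisors, f d := by
  have h1 : ∀ n ∈ Ioc 0 N, ∑ d ∈ n.divisors, f d = ∑ d ∈ Ioc 0 N, if d ∣ n then f d else 0 := by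
    intro n hn
    rw [mem_Ioc] at hn
    rw [← sum_filter]
    apply sum_congr _ fun _ _ => rfl
    ext d
    rw [Nat.mem_divisors, mem_filter, mem_Ioc]
    constructor
    · intro ⟨h1, h2⟩
      exact ⟨⟨Nat.pos_of_dvd_of_pos h1 hn.1, (Nat.le_of_dvd hn.1 h1).trans hn.2⟩, h1⟩
    · intro ⟨_, h2⟩
      exact ⟨h2, by omega⟩
  rw [sum_congr rfl h1, sum_comm]
  apply sum_congr rfl
  intro d hd
  rw [← sum_filter, sum_const, nsmul_eq_mul, mul_comm]
  congr 1
  rw [Nat.Ioc_filter_dvd_card_eq_div]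

lemma m0_bound (B : ℕ) : ∃ C : ℝ, 0 < C ∧ ∀ w : ℕ, 2 ≤ w →
    |∑ d ∈ Ioc 0 w, ((moebius d : ℤ) : ℝ) / d| ≤ C / Real.log w ^ B := by
  obtain ⟨C, hC, h⟩ := frac_bound canc_mu one_pos (by
    intro n hn
    have h1 : |((moebius n : ℤ) : ℝ)| ≤ 1 := by exact_mod_cast abs_moebius_le_one
    have := Real.log_nonneg (show (1 : ℝ) ≤ (n : ℝ) by exact_mod_cast hn)
    linarith) B
  obtain ⟨C1, hC1, h1⟩ := sqrt_le_div_log B
  refine ⟨C + C1, by positivity, fun w hw => ?_⟩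
  have hw0 : (0 : ℝ) < w := by exact_mod_cast (by omega : 0 < w)
  have hw1 : (1 : ℝ) ≤ w := by exact_mod_cast (by omega : 1 ≤ w)
  have hL : 0 < Real.log w := Real.log_pos (by exact_mod_cast (by omega : 1 < w))
  have h2 := h w hw
  have h3 : ∑ n ∈ Ioc 0 w, ((moebius n : ℤ) : ℝ) * ((w / n : ℕ) : ℝ) = 1 := by
    rw [sum_floor]
    have : ∀ n ∈ Ioc 0 w, ∑ d ∈ n.divisors, ((moebius d : ℤ) : ℝ) = if n = 1 then 1 else 0 := by
      intro n _
      rw [← Int.cast_sum]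
      have h4 : ∑ d ∈ n.divisors, moebius d = if n = 1 then 1 else 0 := by
        have h5 := congrArg (fun f : ArithmeticFunction ℤ => f n) moebius_mul_coe_zeta
        simp only [one_apply] at h5
        rw [← h5, ArithmeticFunction.coe_mul_zeta_apply]
      rw [h4]
      split_ifs <;> simp
    rw [sum_congr rfl this, sum_ite_eq' (Ioc 0 w) 1, if_pos (by rw [mem_Ioc]; omega)]
  have e : (w : ℝ) * ∑ d ∈ Ioc 0 w, ((moebius d : ℤ) : ℝ) / d =
      1 + ∑ n ∈ Ioc 0 w, ((moebius n : ℤ) : ℝ) * ((w : ℝ) / n - ((w / n : ℕ) : ℝ)) := by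
    rw [← h3, ← sum_add_distrib, mul_sum]
    exact sum_congr rfl fun n _ => by ring
  have h4 : |(w : ℝ) * ∑ d ∈ Ioc 0 w, ((moebius d : ℤ) : ℝ) / d| ≤
      1 + C * (w / Real.log w ^ B) := by
    rw [e]
    refine (abs_add_le _ _).trans ?_
    rw [abs_one]
    linarith
  have h5 : (1 : ℝ) ≤ C1 * (w / Real.log w ^ B) := by
    refine le_trans ?_ (h1 w hw)
    rw [Real.one_le_sqrt]; exact hw1
  rw [abs_mul, abs_of_pos hw0] at h4
  have h6 : (w : ℝ) * |∑ d ∈ Ioc 0 w, ((moebius d : ℤ) : ℝ) / d| ≤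
      w * ((C + C1) / Real.log w ^ B) := by
    refine h4.trans ?_
    have : (w : ℝ) * ((C + C1) / Real.log w ^ B) = C1 * (w / Real.log w ^ B) +
      C * (w / Real.log w ^ B) := by ring
    rw [this]
    linarith
  exact le_of_mul_le_mul_left h6 hw0

lemma m1_bound (B : ℕ) : ∃ C : ℝ, 0 < C ∧ ∀ w : ℕ, 2 ≤ w →
    |∑ d ∈ Ioc 0 w, ((moebius d : ℤ) : ℝ) * Real.log d / d + 1| ≤ C / Real.log w ^ B := by
  obtain ⟨C, hC, h⟩ := frac_bound (canc_mul_log canc_mu) one_pos (by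
    intro n hn
    have h1 : |((moebius n : ℤ) : ℝ)| ≤ 1 := by exact_mod_cast abs_moebius_le_one
    have := Real.log_nonneg (show (1 : ℝ) ≤ (n : ℝ) by exact_mod_cast hn)
    rw [abs_mul, abs_of_nonneg this]
    nlinarith) B
  obtain ⟨C2, hC2, N₁, h2⟩ := Pool.Agent.H442R2.EHI.PntErrAux.largeU B
  obtain ⟨C1, hC1, h1⟩ := sqrt_le_div_log B
  have hp : 0 ≤ Chebyshev.psi (N₁ : ℝ) := Chebyshev.psi_nonneg _
  refine ⟨C + C2 + (2 + Chebyshev.psi (N₁ : ℝ) + N₁) * C1, by positivity, fun w hw => ?_⟩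
  have hw0 : (0 : ℝ) < w := by exact_mod_cast (by omega : 0 < w)
  have hw1 : (1 : ℝ) ≤ w := by exact_mod_cast (by omega : 1 ≤ w)
  have hL : 0 < Real.log w := Real.log_pos (by exact_mod_cast (by omega : 1 < w))
  have h3 := h w hw
  have h4 : ∑ n ∈ Ioc 0 w, ((moebius n : ℤ) : ℝ) * Real.log n * ((w / n : ℕ) : ℝ) =
      - Chebyshev.psi w := by
    rw [sum_floor (fun n => ((moebius n : ℤ) : ℝ) * Real.log n)]
    have h5 : ∀ n ∈ Ioc 0 w, ∑ d ∈ n.divisors, ((moebius d : ℤ) : ℝ) * Real.log d =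
        - vonMangoldt n := fun n _ => ArithmeticFunction.sum_moebius_mul_log_eq
    rw [sum_congr rfl h5]
    unfold Chebyshev.psi
    rw [Nat.floor_natCast, sum_neg_distrib]
  have e : (w : ℝ) * (∑ d ∈ Ioc 0 w, ((moebius d : ℤ) : ℝ) * Real.log d / d + 1) =
      -(Chebyshev.psi w - w) + ∑ n ∈ Ioc 0 w, ((moebius n : ℤ) : ℝ) * Real.log n *
        ((w : ℝ) / n - ((w / n : ℕ) : ℝ)) := by
    rw [neg_sub, sub_eq_add_neg, ← h4, add_assoc, ← sum_add_distrib, mul_add, mul_sum, mul_one,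
      add_comm]
    congr 1
    exact sum_congr rfl fun n _ => by ring
  have hs1 : 1 ≤ √(w : ℝ) := by rw [Real.one_le_sqrt]; exact hw1
  have h5 : |Chebyshev.psi w - w| ≤ C2 * (w / Real.log w ^ B) +
      (2 + Chebyshev.psi (N₁ : ℝ) + N₁) * √(w : ℝ) := by
    rcases le_or_gt N₁ w with h3 | h3
    · refine (h2 w h3).trans ?_
      have : (0 : ℝ) ≤ N₁ := by positivity
      have : 2 * 1 ≤ (2 + Chebyshev.psi (N₁ : ℝ) + N₁) * √(w : ℝ) := by
        apply mul_le_mul _ hs1 (by norm_num) (by positivity)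
        linarith
      linarith
    · have h2 : Chebyshev.psi (w : ℝ) ≤ Chebyshev.psi (N₁ : ℝ) :=
        Chebyshev.psi_mono (by exact_mod_cast h3.le)
      have h3 : (w : ℝ) ≤ N₁ := by exact_mod_cast h3.le
      have h4 : 0 ≤ Chebyshev.psi (w : ℝ) := Chebyshev.psi_nonneg _
      have h5 : 0 ≤ C2 * (w / Real.log w ^ B) := by positivity
      calc |Chebyshev.psi (w : ℝ) - w| ≤ Chebyshev.psi (N₁ : ℝ) + N₁ := by
            rw [abs_le]; constructor <;> linarith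
        _ ≤ _ := by nlinarith
  have h6 := h1 w hw
  have h7 : |(w : ℝ) * (∑ d ∈ Ioc 0 w, ((moebius d : ℤ) : ℝ) * Real.log d / d + 1)| ≤
      (C + C2 + (2 + Chebyshev.psi (N₁ : ℝ) + N₁) * C1) * (w / Real.log w ^ B) := by
    rw [e]
    refine (abs_add_le _ _).trans ?_
    rw [abs_neg]
    have hK : 0 ≤ 2 + Chebyshev.psi (N₁ : ℝ) + N₁ := by positivity
    nlinarith [mul_le_mul_of_nonneg_left h6 hK]
  rw [abs_mul, abs_of_pos hw0] at h7
  have h8 : (w : ℝ) * |∑ d ∈ Ioc 0 w, ((moebius d : ℤ) : ℝ) * Real.log d / d + 1| ≤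
      w * ((C + C2 + (2 + Chebyshev.psi (N₁ : ℝ) + N₁) * C1) / Real.log w ^ B) := by
    refine h7.trans (le_of_eq ?_)
    ring
  exact le_of_mul_le_mul_left h8 hw0

end Pool.Agent.W66
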