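import Pool.Agent.H49.G.R_seed8.W66.ZC
import Pool.Agent.H49.G.R_seed8.H307R2.LU

set_option autoImplicit false

/-!
# Zero free region of `L(s, χ)` for complex characters: growth, Landau's lemma, 3-4-1
-/

open Complex Filter Topology Set MeasureTheory Metric
open scoped ArithmeticFunction.vonMangoldt ArithmeticFunction.Moebius

namespace Pool.Agent.W66L

open H370 H370.Loc Pool.Agent.W66

variable {Q : ℕ} [NeZero Q]

/-- `log Q + log (|t| + 3)` -/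
noncomputable def lq (Q : ℕ) (t : ℝ) : ℝ := Real.log Q + ell t

lemma ell_le_lq (Q : ℕ) (t : ℝ) : ell t ≤ lq Q t := by
  unfold lq
  have := Real.log_natCast_nonneg Q
  linarith

lemma one_le_lq (Q : ℕ) (t : ℝ) : 1 ≤ lq Q t := (one_le_ell t).trans (ell_le_lq Q t)

lemma lq_near {Q : ℕ} {s t : ℝ} (h : |s - t| ≤ 2) : lq Q s ≤ 2 * lq Q t := by
  have h1 := ell_near h
  have := Real.log_natCast_nonneg Q
  unfold lq
  linarith

lemma LF_growth {χ : DirichletCharacter ℂ Q} (hχ : χ ≠ 1) {s : ℂ} (hs : 1 / 4 ≤ s.re) :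
    ‖χ.LFunction s‖ ≤ 1 + 4 * (Q * ‖s‖) := by
  have hs0 : 0 < s.re := by linarith
  rw [H307R2.LFunction_eq hχ le_rfl hs0]
  have h1 := H307R2.TM_norm_le (le_refl 1) (H307R2.Ech_norm_le hχ 1) hs0
  have h2 : ‖∑ n ∈ Finset.Icc (1 : ℕ) 1, χ (n : ZMod Q) * (n : ℂ) ^ (-s)‖ ≤ 1 := by
    simp
  have h5 : (1 : ℝ) / s.re ≤ 4 := by
    rw [div_le_iff₀ hs0]
    linarith
  have h3 : ‖H307R2.TM 1 (H307R2.Ech χ 1) s‖ ≤ Q * 4 := by
    refine h1.trans ?_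
    rw [Nat.cast_one, Real.one_rpow]
    exact mul_le_mul_of_nonneg_left h5 (Nat.cast_nonneg _)
  refine (norm_add_le _ _).trans ?_
  rw [norm_mul]
  have h6 : ‖s‖ * ‖H307R2.TM 1 (H307R2.Ech χ 1) s‖ ≤ ‖s‖ * (Q * 4) :=
    mul_le_mul_of_nonneg_left h3 (norm_nonneg _)
  linarith

lemma LF_low : ∃ c : ℝ, 0 < c ∧ c ≤ 1 ∧ ∀ (Q : ℕ) [NeZero Q] (χ : DirichletCharacter ℂ Q) (t : ℝ),
    c ≤ ‖χ.LFunction ⟨2, t⟩‖ := by
  have hsum : Summable (fun n : ℕ => 1 / (n : ℝ) ^ 2) :=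
    Real.summable_one_div_nat_pow.mpr (by norm_num)
  have hZ : 1 ≤ ∑' n : ℕ, 1 / (n : ℝ) ^ 2 := by
    have := hsum.le_tsum 1 (fun n _ => by positivity)
    simpa using this
  set Z := ∑' n : ℕ, 1 / (n : ℝ) ^ 2 with hZd
  have hZ0 : 0 < Z := by linarith
  refine ⟨1 / Z, by positivity, by rw [div_le_one hZ0]; exact hZ, fun Q _ χ t => ?_⟩
  have hre : (1 : ℝ) < (⟨2, t⟩ : ℂ).re := by norm_num
  have h1 := DirichletCharacter.LSeries.mul_mu_eq_one χ hre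
  rw [← DirichletCharacter.LFunction_eq_LSeries χ hre] at h1
  have h2 : ‖LSeries ((fun n : ℕ => (χ n : ℂ)) * (fun n : ℕ => (μ n : ℂ))) (⟨2, t⟩ : ℂ)‖ ≤ Z := by
    unfold LSeries
    refine tsum_of_norm_bounded hsum.hasSum fun n => ?_
    rcases eq_or_ne n 0 with rfl | hn
    · simp
    · rw [LSeries.term_of_ne_zero hn, norm_div, norm_natCast_cpow_of_pos (Nat.pos_of_ne_zero hn)]
      rw [show ((2 : ℝ) : ℝ) = ((2 : ℕ) : ℝ) by norm_num, Real.rpow_natCast]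
      apply div_le_div_of_nonneg_right _ (by positivity)
      rw [Pi.mul_apply, norm_mul]
      have h3 := ArithmeticFunction.abs_moebius_le_one (n := n)
      have h4 : ‖((ArithmeticFunction.moebius n : ℤ) : ℂ)‖ ≤ 1 := by
        rw [Complex.norm_intCast]
        exact_mod_cast h3
      exact mul_le_one₀ (χ.norm_le_one _) (norm_nonneg _) h4
  have h3 : ‖χ.LFunction ⟨2, t⟩‖ * ‖LSeries ((fun n : ℕ => (χ n : ℂ)) * (fun n : ℕ => (μ n : ℂ))) (⟨2, t⟩ : ℂ)‖ = 1 := by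
    rw [← norm_mul, h1, norm_one]
  rw [div_le_iff₀ hZ0]
  calc (1 : ℝ) = _ := h3.symm
    _ ≤ _ := mul_le_mul_of_nonneg_left h2 (norm_nonneg _)

/-- bounds in the ball of radius `7/4` about `2 + it` -/
lemma LF_ball : ∃ K : ℝ, 0 < K ∧ ∀ (Q : ℕ) [NeZero Q] (χ : DirichletCharacter ℂ Q), χ ≠ 1 →
    ∀ t : ℝ, ∃ M : ℝ, 1 ≤ M ∧
    (∀ z ∈ closedBall (⟨2, t⟩ : ℂ) (7 / 4), ‖χ.LFunction z‖ ≤ M) ∧
    0 ≤ Real.log (M / ‖χ.LFunction ⟨2, t⟩‖) ∧
    Real.log (M / ‖χ.LFunction ⟨2, t⟩‖) ≤ K * lq Q t := by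
  obtain ⟨c, hc, hc1, hl⟩ := LF_low
  refine ⟨Real.log (9 / c) + 1, ?_, fun Q _ χ hχ t => ⟨9 * (Q * (|t| + 3)), ?_, ?_, ?_⟩⟩
  · have : 0 ≤ Real.log (9 / c) := Real.log_nonneg (by rw [le_div_iff₀ hc]; linarith)
    linarith
  · have := abs_nonneg t
    have hQ : (1 : ℝ) ≤ Q := by exact_mod_cast NeZero.one_le
    nlinarith
  all_goals
    have hQ : (1 : ℝ) ≤ Q := by exact_mod_cast NeZero.one_le
    have ht := abs_nonneg t
    have h2 : ‖(⟨2, t⟩ : ℂ)‖ ≤ 2 + |t| := by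
      refine (Complex.norm_le_abs_re_add_abs_im _).trans ?_
      simp
    have hball : ∀ z ∈ closedBall (⟨2, t⟩ : ℂ) (7 / 4), ‖χ.LFunction z‖ ≤ 9 * (Q * (|t| + 3)) := by
      intro z hz
      rw [mem_closedBall, dist_eq_norm] at hz
      have h1 := (Complex.abs_re_le_norm (z - ⟨2, t⟩)).trans hz
      simp only [sub_re] at h1
      rw [abs_le] at h1
      have hre : 1 / 4 ≤ z.re := by linarith [h1.1]
      refine (LF_growth hχ hre).trans ?_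
      have h4 : ‖z‖ ≤ |t| + 15 / 4 := by
        calc ‖z‖ = ‖(z - ⟨2, t⟩) + ⟨2, t⟩‖ := by ring_nf
          _ ≤ ‖z - ⟨2, t⟩‖ + ‖(⟨2, t⟩ : ℂ)‖ := norm_add_le _ _
          _ ≤ _ := by linarith
      have h6 : (Q : ℝ) * ‖z‖ ≤ Q * (|t| + 15 / 4) := mul_le_mul_of_nonneg_left h4 (by linarith)
      nlinarith
  · exact hball
  · have h0 := hl Q χ t
    have hpos : 0 < ‖χ.LFunction ⟨2, t⟩‖ := by linarith
    have hb := hball _ (mem_closedBall_self (by norm_num))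
    constructor
    · exact Real.log_nonneg (by rw [le_div_iff₀ hpos]; linarith)
    · have h1 : Real.log (9 * (Q * (|t| + 3)) / ‖χ.LFunction ⟨2, t⟩‖) ≤
          Real.log ((9 / c) * (Q * (|t| + 3))) := by
        apply Real.log_le_log (by positivity)
        rw [div_mul_eq_mul_div]
        exact div_le_div_of_nonneg_left (by positivity) hc h0
      rw [Real.log_mul (by positivity) (by positivity),
        Real.log_mul (by positivity) (by positivity)] at h1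
      have h2 : 0 ≤ Real.log (9 / c) := Real.log_nonneg (by rw [le_div_iff₀ hc]; linarith)
      have h3 := one_le_lq Q t
      unfold lq ell at h3 ⊢
      nlinarith

/-- the constant of Landau's lemma -/
lemma LF_const : ∃ K : ℝ, 0 < K ∧ ∀ (Q : ℕ) [NeZero Q] (χ : DirichletCharacter ℂ Q), χ ≠ 1 →
    ∀ t : ℝ, ∃ M : ℝ, 1 ≤ M ∧
    (∀ z ∈ closedBall (⟨2, t⟩ : ℂ) (7 / 4), ‖χ.LFunction z‖ ≤ M) ∧
    Real.log (M / ‖χ.LFunction ⟨2, t⟩‖) / Real.log (7 / 4 / (3 / 2)) ≤ K * lq Q t ∧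
    2 * (Real.log (M / ‖χ.LFunction ⟨2, t⟩‖) + Real.log (M / ‖χ.LFunction ⟨2, t⟩‖) /
      Real.log (7 / 4 / (3 / 2)) * Real.log (3 / 2 / (7 / 4 - 3 / 2)) + 1) * (11 / 8) /
      (3 / 2 - 11 / 8) / (11 / 8 - 9 / 8) ≤ K * lq Q t := by
  obtain ⟨K0, hK0, hball⟩ := LF_ball
  have hl1 : 0 < Real.log (7 / 4 / (3 / 2)) := Real.log_pos (by norm_num)
  have hl2 : 0 < Real.log (3 / 2 / (7 / 4 - 3 / 2)) := Real.log_pos (by norm_num)
  set K1 : ℝ := 2 * (K0 + K0 / Real.log (7 / 4 / (3 / 2)) * Real.log (3 / 2 / (7 / 4 - 3 / 2)) + 1) *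
    (11 / 8) / (3 / 2 - 11 / 8) / (11 / 8 - 9 / 8) with hK1
  have hK1pos : 0 < K1 := by
    rw [hK1]
    have : 0 < K0 / Real.log (7 / 4 / (3 / 2)) * Real.log (3 / 2 / (7 / 4 - 3 / 2)) := by positivity
    have h2 : (0 : ℝ) < 3 / 2 - 11 / 8 := by norm_num
    have h3 : (0 : ℝ) < 11 / 8 - 9 / 8 := by norm_num
    positivity
  have hK2 : 0 < K0 / Real.log (7 / 4 / (3 / 2)) := by positivity
  refine ⟨K1 + K0 / Real.log (7 / 4 / (3 / 2)), by positivity, fun Q _ χ hχ t => ?_⟩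
  obtain ⟨M, hM1, hMb, hl0, hlK⟩ := hball Q χ hχ t
  have hell := one_le_lq Q t
  refine ⟨M, hM1, hMb, ?_, ?_⟩
  · have h1 : Real.log (M / ‖χ.LFunction ⟨2, t⟩‖) / Real.log (7 / 4 / (3 / 2)) ≤
        (K0 * lq Q t) / Real.log (7 / 4 / (3 / 2)) := by gcongr
    have h2 : (K0 * lq Q t) / Real.log (7 / 4 / (3 / 2)) =
        K0 / Real.log (7 / 4 / (3 / 2)) * lq Q t := by ring
    rw [h2] at h1
    nlinarith
  · have e1 : Real.log (M / ‖χ.LFunction ⟨2, t⟩‖) + Real.log (M / ‖χ.LFunction ⟨2, t⟩‖) /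
      Real.log (7 / 4 / (3 / 2)) * Real.log (3 / 2 / (7 / 4 - 3 / 2)) + 1 ≤
      (K0 + K0 / Real.log (7 / 4 / (3 / 2)) * Real.log (3 / 2 / (7 / 4 - 3 / 2)) + 1) * lq Q t := by
      have e2 : Real.log (M / ‖χ.LFunction ⟨2, t⟩‖) /
        Real.log (7 / 4 / (3 / 2)) * Real.log (3 / 2 / (7 / 4 - 3 / 2)) ≤
        (K0 * lq Q t) / Real.log (7 / 4 / (3 / 2)) * Real.log (3 / 2 / (7 / 4 - 3 / 2)) := by
        gcongr
      have e3 : (K0 * lq Q t) / Real.log (7 / 4 / (3 / 2)) * Real.log (3 / 2 / (7 / 4 - 3 / 2)) =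
        K0 / Real.log (7 / 4 / (3 / 2)) * Real.log (3 / 2 / (7 / 4 - 3 / 2)) * lq Q t := by ring
      rw [e3] at e2
      nlinarith
    have h3 : (0 : ℝ) < 3 / 2 - 11 / 8 := by norm_num
    have h4 : (0 : ℝ) < 11 / 8 - 9 / 8 := by norm_num
    calc _ ≤ 2 * ((K0 + K0 / Real.log (7 / 4 / (3 / 2)) * Real.log (3 / 2 / (7 / 4 - 3 / 2)) + 1) *
        lq Q t) * (11 / 8) / (3 / 2 - 11 / 8) / (11 / 8 - 9 / 8) := by gcongr
      _ = K1 * lq Q t := by rw [hK1]; ring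
      _ ≤ _ := by nlinarith

lemma LF_ne_zero {χ : DirichletCharacter ℂ Q} (hχ : χ ≠ 1) {s : ℂ} (hs : 1 ≤ s.re) :
    χ.LFunction s ≠ 0 :=
  DirichletCharacter.LFunction_ne_zero_of_one_le_re χ (Or.inl hχ) hs

/-- lower bound for the real part of the logarithmic derivative to the right of one -/
lemma DL_re : ∃ K : ℝ, 0 < K ∧ ∀ (Q : ℕ) [NeZero Q] (χ : DirichletCharacter ℂ Q), χ ≠ 1 →
    ∀ t σ : ℝ, 1 < σ → σ ≤ 2 →
    (- K * lq Q t ≤ (deriv χ.LFunction ⟨σ, t⟩ / χ.LFunction ⟨σ, t⟩).re) ∧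
    ∀ ρ ∈ closedBall (⟨2, t⟩ : ℂ) (3 / 2), χ.LFunction ρ = 0 →
      (1 / ((⟨σ, t⟩ : ℂ) - ρ)).re - K * lq Q t ≤
        (deriv χ.LFunction ⟨σ, t⟩ / χ.LFunction ⟨σ, t⟩).re := by
  obtain ⟨K1, hK1pos, hball⟩ := LF_const
  refine ⟨K1, hK1pos, fun Q _ χ hχ t σ h1 h2 => ?_⟩
  obtain ⟨M, hM1, hMb, -, hbd⟩ := hball Q χ hχ t
  have hc : χ.LFunction ⟨2, t⟩ ≠ 0 := LF_ne_zero hχ (by norm_num)
  have hcb : ‖χ.LFunction ⟨2, t⟩‖ ≤ M := hMb _ (mem_closedBall_self (by norm_num))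
  obtain ⟨s, hs1, hs2, hs3⟩ := landau_re (f := χ.LFunction) (c := ⟨2, t⟩) (r := 3 / 2)
    (r1 := 11 / 8) (r2 := 9 / 8) (R := 7 / 4) (M := M) (by norm_num) (by norm_num) (by norm_num)
    (by norm_num) (by norm_num) hM1 hcb
    (fun z _ => (DirichletCharacter.differentiable_LFunction hχ).analyticAt z) hc hMb
  have hz : (⟨σ, t⟩ : ℂ) ∈ closedBall (⟨2, t⟩ : ℂ) (9 / 8) := by
    rw [mem_closedBall, dist_eq_norm]
    have e : (⟨σ, t⟩ : ℂ) - ⟨2, t⟩ = ((σ - 2 : ℝ) : ℂ) := by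
      apply Complex.ext <;> simp
    rw [e, Complex.norm_real, Real.norm_eq_abs, abs_le]
    constructor <;> linarith
  have hre : ∀ ρ ∈ s, ρ.re < 1 := by
    intro ρ hρ
    by_contra hcon
    exact LF_ne_zero hχ (not_lt.1 hcon) (hs1 ρ hρ).2
  have hzne : ∀ ρ ∈ s, (⟨σ, t⟩ : ℂ) ≠ ρ := by
    intro ρ hρ he
    have := hre ρ hρ
    rw [← he] at this
    simp at this
    linarith
  have hmain := hs3 _ hz hzne
  have hmain2 := hmain.trans hbd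
  have hsumre : ∀ m : Multiset ℂ, (∀ ρ ∈ m, ρ.re < 1) →
      0 ≤ ((m.map (fun ρ => 1 / ((⟨σ, t⟩ : ℂ) - ρ))).sum).re ∧
      ∀ ρ ∈ m, (1 / ((⟨σ, t⟩ : ℂ) - ρ)).re ≤ ((m.map (fun ρ => 1 / ((⟨σ, t⟩ : ℂ) - ρ))).sum).re := by
    intro m
    induction m using Multiset.induction_on with
    | empty => intro _; simp
    | cons a m ih =>
      intro h
      have ha := h a (Multiset.mem_cons_self a m)
      obtain ⟨i1, i2⟩ := ih fun ρ hρ => h ρ (Multiset.mem_cons_of_mem hρ)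
      have ha2 : 0 ≤ (1 / ((⟨σ, t⟩ : ℂ) - a)).re := by
        rw [one_div, Complex.inv_re]
        apply div_nonneg _ (Complex.normSq_nonneg _)
        simp only [sub_re]
        linarith
      rw [Multiset.map_cons, Multiset.sum_cons, add_re]
      refine ⟨by linarith, fun ρ hρ => ?_⟩
      rw [Multiset.mem_cons] at hρ
      rcases hρ with rfl | hρ
      · linarith
      · have := i2 ρ hρ
        linarith
  obtain ⟨j1, j2⟩ := hsumre s hre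
  have hdiff := (Complex.abs_re_le_norm _).trans hmain2
  rw [sub_re, abs_le] at hdiff
  constructor
  · linarith [hdiff.1]
  · intro ρ hρ h0
    have := j2 ρ (hs2 ρ hρ h0)
    linarith [hdiff.1]

/-- logarithmic derivative as a Dirichlet series -/
lemma LSeries_eq_DL (χ : DirichletCharacter ℂ Q) (hχ : χ ≠ 1) {s : ℂ} (hs : 1 < s.re) :
    LSeries ((fun n : ℕ => (χ n : ℂ)) * (fun n : ℕ => (Λ n : ℂ))) s = - (deriv χ.LFunction s / χ.LFunction s) := by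
  rw [DirichletCharacter.LSeries_twist_vonMangoldt_eq χ hs]
  have h1 : χ.LFunction =ᶠ[𝓝 s] LSeries (fun n : ℕ => χ n) := by
    have h4 : {z : ℂ | 1 < z.re} ∈ 𝓝 s :=
      (isOpen_lt continuous_const Complex.continuous_re).mem_nhds hs
    filter_upwards [h4] with z hz
    exact DirichletCharacter.LFunction_eq_LSeries χ hz
  rw [h1.deriv_eq, h1.eq_of_nhds]
  ring

/-- the 3-4-1 inequality for characters -/
lemma three_four_one_char (χ : DirichletCharacter ℂ Q) {σ : ℝ} (hσ : 1 < σ) (t : ℝ) :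
    0 ≤ 3 * (LSeries (fun n => (Λ n : ℂ)) (⟨σ, 0⟩ : ℂ)).re +
      4 * (LSeries ((fun n : ℕ => (χ n : ℂ)) * (fun n : ℕ => (Λ n : ℂ))) (⟨σ, t⟩ : ℂ)).re +
      (LSeries ((fun n : ℕ => ((χ ^ 2) n : ℂ)) * (fun n : ℕ => (Λ n : ℂ))) (⟨σ, 2 * t⟩ : ℂ)).re := by
  have hs0 : LSeriesSummable (fun n => (Λ n : ℂ)) (⟨σ, 0⟩ : ℂ) :=
    ArithmeticFunction.LSeriesSummable_vonMangoldt (by simpa using hσ)
  have hs1 : LSeriesSummable ((fun n : ℕ => (χ n : ℂ)) * (fun n : ℕ => (Λ n : ℂ))) (⟨σ, t⟩ : ℂ) :=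
    DirichletCharacter.LSeriesSummable_mul χ
      (ArithmeticFunction.LSeriesSummable_vonMangoldt (by simpa using hσ))
  have hs2 : LSeriesSummable ((fun n : ℕ => ((χ ^ 2) n : ℂ)) * (fun n : ℕ => (Λ n : ℂ))) (⟨σ, 2 * t⟩ : ℂ) :=
    DirichletCharacter.LSeriesSummable_mul (χ ^ 2)
      (ArithmeticFunction.LSeriesSummable_vonMangoldt (by simpa using hσ))
  unfold LSeries
  rw [Complex.re_tsum hs0, Complex.re_tsum hs1, Complex.re_tsum hs2]
  have h0 := (Complex.reCLM.summable hs0)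
  have h1 := (Complex.reCLM.summable hs1)
  have h2 := (Complex.reCLM.summable hs2)
  simp only [Complex.reCLM_apply] at h0 h1 h2
  rw [← tsum_mul_left, ← tsum_mul_left, ← Summable.tsum_add (h0.mul_left 3) (h1.mul_left 4),
    ← Summable.tsum_add ((h0.mul_left 3).add (h1.mul_left 4)) h2]
  refine tsum_nonneg fun n => ?_
  rcases eq_or_ne n 0 with rfl | hn
  · simp
  have hn0 : (n : ℂ) ≠ 0 := by exact_mod_cast hn
  have hnr : (0 : ℝ) < n := by exact_mod_cast Nat.pos_of_ne_zero hn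
  set w : ℂ := cexp (-(((t * Real.log n : ℝ) : ℂ) * I)) with hw
  set A : ℝ := Λ n / (n : ℝ) ^ σ with hA
  have hA0 : 0 ≤ A := div_nonneg ArithmeticFunction.vonMangoldt_nonneg (by positivity)
  have key : ∀ (k : ℕ), ((Λ n : ℝ) : ℂ) / (n : ℂ) ^ (⟨σ, k * t⟩ : ℂ) = (A : ℂ) * w ^ k := by
    intro k
    have e : (⟨σ, k * t⟩ : ℂ) = (σ : ℂ) + ((k * t : ℝ) : ℂ) * I := by
      apply Complex.ext <;> simp
    rw [e, Complex.cpow_add _ _ hn0]
    have e2 : (n : ℂ) ^ (((k * t : ℝ) : ℂ) * I) = (w ^ k)⁻¹ := by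
      rw [hw, ← Complex.exp_nat_mul, ← Complex.exp_neg, Complex.cpow_def_of_ne_zero hn0,
        ← Complex.natCast_log]
      congr 1
      push_cast
      ring
    rw [e2]
    have e3 : (n : ℂ) ^ (σ : ℂ) = (((n : ℝ) ^ σ : ℝ) : ℂ) := by
      rw [Complex.ofReal_cpow hnr.le]
      simp
    rw [e3, hA]
    push_cast
    rw [← div_div, div_inv_eq_mul]
  have k0 := key 0
  have k1 := key 1
  have k2 := key 2
  simp only [Nat.cast_zero, zero_mul, pow_zero, mul_one, Nat.cast_one, one_mul, pow_one,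
    Nat.cast_ofNat] at k0 k1 k2
  rw [LSeries.term_of_ne_zero hn, LSeries.term_of_ne_zero hn, LSeries.term_of_ne_zero hn]
  have m1 : ((fun n : ℕ => (χ n : ℂ)) * (fun n : ℕ => (Λ n : ℂ))) n / (n : ℂ) ^ (⟨σ, t⟩ : ℂ) = (A : ℂ) * (χ n * w) := by
    rw [Pi.mul_apply, mul_div_assoc, k1]
    ring
  have m2 : ((fun n : ℕ => ((χ ^ 2) n : ℂ)) * (fun n : ℕ => (Λ n : ℂ))) n / (n : ℂ) ^ (⟨σ, 2 * t⟩ : ℂ) = (A : ℂ) * (χ n * w) ^ 2 := by
    rw [Pi.mul_apply, mul_div_assoc, k2, mul_pow]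
    have : (χ ^ 2) (n : ZMod Q) = (χ n) ^ 2 := by
      rw [sq, sq, MulChar.mul_apply]
    rw [this]
    ring
  rw [k0, m1, m2]
  set v : ℂ := χ n * w with hv
  have hv1 : v.re ^ 2 + v.im ^ 2 ≤ 1 := by
    have h3 : ‖w‖ = 1 := by
      rw [hw, ← neg_mul, ← Complex.ofReal_neg, Complex.norm_exp_ofReal_mul_I]
    have h5 : ‖v‖ ≤ 1 := by
      rw [hv, norm_mul, h3, mul_one]
      exact χ.norm_le_one _
    have h4 := Complex.sq_norm v
    rw [Complex.normSq_apply] at h4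
    have h6 : ‖v‖ ^ 2 ≤ 1 := pow_le_one₀ (norm_nonneg _) h5
    nlinarith
  have e4 : ((A : ℂ)).re = A := Complex.ofReal_re A
  have e5 : ((A : ℂ) * v).re = A * v.re := by simp
  have e6 : ((A : ℂ) * v ^ 2).re = A * (v.re ^ 2 - v.im ^ 2) := by
    rw [Complex.re_ofReal_mul, sq, Complex.mul_re]
    ring
  rw [e4, e5, e6]
  have e7 : 0 ≤ 3 + 4 * v.re + (v.re ^ 2 - v.im ^ 2) := by
    have : v.im ^ 2 ≤ 1 - v.re ^ 2 := by linarith
    nlinarith [sq_nonneg (1 + v.re)]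
  nlinarith [mul_nonneg hA0 e7]

end Pool.Agent.W66L
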