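import Pool.Agent.H49.G.R_seed8.W66.PG

set_option autoImplicit false

/-!
# Simple facts on the smoothed prime sum
-/

open Filter Topology Set MeasureTheory Metric
open scoped Real FourierTransform

namespace Pool.Agent.W66

lemma TT_le {h z : ℝ} (hh : 0 < h) {N N' : ℕ} (hN : Real.exp (z + h) ≤ N) (hNN : N ≤ N') :
    TT h N' z = TT h N z := by
  unfold TT
  symm
  apply Finset.sum_subset (Finset.Ioc_subset_Ioc_right hNN)
  intro n hn hn2
  rw [Finset.mem_Ioc] at hn hn2
  have h1 : N < n := by omega
  have h2 : z + h ≤ Real.log n := by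
    rw [Real.le_log_iff_exp_le (by exact_mod_cast hn.1)]
    refine hN.trans ?_
    exact_mod_cast h1.le
  rw [tri_zero_of hh, mul_zero]
  rw [abs_of_nonpos (by linarith)]
  linarith

lemma TT_indep {h z : ℝ} (hh : 0 < h) {N N' : ℕ} (hN : Real.exp (z + h) ≤ N)
    (hN' : Real.exp (z + h) ≤ N') : TT h N' z = TT h N z := by
  rcases le_total N N' with h1 | h1
  · exact TT_le hh hN h1
  · exact (TT_le hh hN' h1).symm

lemma TT_continuous (h : ℝ) (N : ℕ) : Continuous (TT h N) := by
  unfold TT
  apply continuous_finsetSum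
  intro n _
  exact continuous_const.mul ((tri_continuous h).comp (by fun_prop))

lemma integral_hat (u : ℝ) : ∫ v, hat (u - v) = 1 := by
  rw [integral_sub_left_eq_self (fun v => hat v) volume u]
  have := integral_tri (h := 1) one_pos
  rw [← this]
  congr 1
  ext x
  unfold tri
  simp

end Pool.Agent.W66
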