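import Pool.Agent.H49.G.R_seed8.W66.PG2
import Pool.Agent.H49.G.R_seed8.W66.PC

set_option autoImplicit false

/-!
# Primes in almost all very short intervals, in a smoothed mean square form
-/

open Filter Topology Set MeasureTheory Metric
open scoped Real FourierTransform

namespace Pool.Agent.W66

lemma PE_triv {u : ℝ} (hu : 1 ≤ u) (ξ : ℝ) :
    ‖PS u (2 * π * ξ) - PT u (2 * π * ξ)‖ ≤ (u + 1) * (u + 2) + 1 := by
  refine (norm_sub_le _ _).trans (add_le_add ?_ ?_)
  · rw [PS_fin u ξ _ (Nat.le_ceil _)]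
    refine (norm_sum_le _ _).trans ?_
    have h1 : ∀ n ∈ Finset.Ioc 0 ⌈Real.exp (u + 1)⌉₊,
        ‖((ArithmeticFunction.vonMangoldt n / n * hat (u - Real.log n) : ℝ) : ℂ) *
        Complex.exp (-(((2 * π * ξ * Real.log n : ℝ) : ℂ) * Complex.I))‖ ≤
        if Real.log n < u + 1 then ArithmeticFunction.vonMangoldt n / n else 0 := by
      intro n _
      have h2 : 0 ≤ ArithmeticFunction.vonMangoldt n / (n : ℝ) :=
        div_nonneg ArithmeticFunction.vonMangoldt_nonneg (by positivity)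
      rw [norm_mul, show -(((2 * π * ξ * Real.log n : ℝ) : ℂ) * Complex.I) =
        ((-(2 * π * ξ * Real.log n) : ℝ) : ℂ) * Complex.I by push_cast; ring,
        Complex.norm_exp_ofReal_mul_I, mul_one, Complex.norm_real,
        Real.norm_of_nonneg (mul_nonneg h2 (hat_nonneg _))]
      split_ifs with h3
      · calc _ ≤ ArithmeticFunction.vonMangoldt n / n * 1 := by
              gcongr
              exact hat_le_one _
          _ = _ := mul_one _
      · rw [hat_zero_of, mul_zero]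
        rw [not_lt] at h3
        rw [abs_of_nonpos (by linarith)]
        linarith
    refine (Finset.sum_le_sum h1).trans ?_
    rw [← Finset.sum_filter]
    refine (La_sum_le _ (by linarith)).trans (le_of_eq (by ring))
  · rw [PT_full hu]
    refine (norm_four_le _ _).trans (le_of_eq ?_)
    rw [← integral_hat u]
    congr 1
    ext v
    rw [Complex.norm_real, Real.norm_of_nonneg (hat_nonneg _)]

/-- uniform bound of the transform of the discrepancy -/
theorem M_bound (D : ℕ) : ∃ C0 K : ℝ, 0 < C0 ∧ 0 < K ∧ ∀ Z lam h u : ℝ, 20 ≤ Z →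
    11 * (Z ^ D * Real.exp (-√Z)) ≤ 1 → √Z ≤ lam → lam ≤ Z → h = Real.exp (-lam) →
    1 ≤ u → C0 * lam * Real.log Z ≤ u → u ≤ Z + 4 → ∀ ξ : ℝ,
    ‖PS u (2 * π * ξ) - PT u (2 * π * ξ)‖ * ‖𝓕 (boxC h) ξ‖ ≤ K * (Z ^ 2 / Z ^ D) := by
  obtain ⟨c, C, hc, hc1, hC, hPE⟩ := PE_bound
  refine ⟨2 * D / c + 1, C * 13 + 2, by positivity, by positivity,
    fun Z lam h u hZ hZD hlam1 hlam2 hh hu1 hu2 hu3 ξ => ?_⟩
  have hZ0 : 0 < Z := by linarith
  have hh0 : 0 < h := by rw [hh]; exact Real.exp_pos _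
  have hsq1 : 1 ≤ √Z := by rw [Real.one_le_sqrt]; linarith
  have hlam0 : 1 ≤ lam := hsq1.trans hlam1
  have hZD0 : 0 < Z ^ D := by positivity
  have hZD1 : 1 ≤ Z ^ D := one_le_pow₀ (by linarith)
  rcases le_or_gt |ξ| (Z ^ D / h) with hξ | hξ
  · have h1 := hPE u (2 * π * ξ) (Z ^ D) hu1 hZD1
    set ℓ := ell (|2 * π * ξ| + Z ^ D) with hℓ
    have hℓ1 : 1 ≤ ℓ := one_le_ell _
    have hpi := Real.pi_lt_d2
    have hpi0 := Real.pi_pos
    have hℓ2 : ℓ ≤ 2 * lam := by
      rw [hℓ]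
      unfold ell
      rw [abs_of_nonneg (by positivity)]
      have e1 : |2 * π * ξ| + Z ^ D + 3 ≤ 11 * Z ^ D * Real.exp lam := by
        have e2 : |2 * π * ξ| ≤ 7 * (Z ^ D * Real.exp lam) := by
          rw [abs_mul, abs_of_pos (by positivity : 0 < 2 * π)]
          have e3 : Z ^ D / h = Z ^ D * Real.exp lam := by
            rw [hh, Real.exp_neg]; field_simp
          rw [e3] at hξ
          have : 0 ≤ |ξ| := abs_nonneg _
          nlinarith
        have e4 : 1 ≤ Real.exp lam := Real.one_le_exp (by linarith)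
        have e5 : Z ^ D ≤ Z ^ D * Real.exp lam := by nlinarith
        linarith
      have e2 : 11 * Z ^ D ≤ Real.exp lam := by
        have e3 : 11 * Z ^ D ≤ Real.exp (√Z) := by
          rw [Real.exp_neg, ← div_eq_mul_inv, ← mul_div_assoc, div_le_one (Real.exp_pos _)] at hZD
          exact hZD
        exact e3.trans (Real.exp_le_exp.2 hlam1)
      rw [Real.log_le_iff_le_exp (by positivity)]
      refine e1.trans ?_
      calc 11 * Z ^ D * Real.exp lam ≤ Real.exp lam * Real.exp lam := by gcongr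
        _ = Real.exp (2 * lam) := by rw [← Real.exp_add]; congr 1; ring
    have hexp : Real.exp (-(c * u / ℓ)) ≤ 1 / Z ^ D := by
      have e1 : (D : ℝ) * Real.log Z ≤ c * u / ℓ := by
        rw [le_div_iff₀ (by linarith)]
        have hlZ : 0 ≤ Real.log Z := Real.log_nonneg (by linarith)
        calc (D : ℝ) * Real.log Z * ℓ ≤ D * Real.log Z * (2 * lam) := by gcongr
          _ = c * ((2 * D / c) * lam * Real.log Z) := by field_simp
          _ ≤ c * ((2 * D / c + 1) * lam * Real.log Z) := by gcongr; linarith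
          _ ≤ c * u := by gcongr
      have e2 : 1 / Z ^ D = Real.exp (-((D : ℝ) * Real.log Z)) := by
        rw [Real.exp_neg, Real.exp_nat_mul, Real.exp_log hZ0, one_div]
      rw [e2]
      exact Real.exp_le_exp.2 (by linarith)
    have hℓsq : ℓ ^ 2 ≤ 4 * Z ^ 2 := by
      calc ℓ ^ 2 ≤ (2 * Z) ^ 2 := by gcongr; linarith
        _ = _ := by ring
    have h2 : ℓ ^ 2 * Real.exp (-(c * u / ℓ)) + ℓ ^ 2 / (Z ^ D) ^ 2 + u / Z ^ D ≤
        13 * (Z ^ 2 / Z ^ D) := by
      have e1 : ℓ ^ 2 * Real.exp (-(c * u / ℓ)) ≤ 4 * Z ^ 2 * (1 / Z ^ D) := by gcongr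
      have e2 : ℓ ^ 2 / (Z ^ D) ^ 2 ≤ 4 * Z ^ 2 / Z ^ D := by
        have : Z ^ D ≤ (Z ^ D) ^ 2 := by nlinarith
        gcongr
      have e3 : u / Z ^ D ≤ 5 * Z ^ 2 / Z ^ D := by
        gcongr
        nlinarith
      calc _ ≤ 4 * Z ^ 2 * (1 / Z ^ D) + 4 * Z ^ 2 / Z ^ D + 5 * Z ^ 2 / Z ^ D := by linarith
        _ = _ := by ring
    have h3 := norm_four_box_le_one hh0 ξ
    have h4 : 0 ≤ Z ^ 2 / Z ^ D := by positivity
    calc ‖PS u (2 * π * ξ) - PT u (2 * π * ξ)‖ * ‖𝓕 (boxC h) ξ‖ ≤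
          (C * (13 * (Z ^ 2 / Z ^ D))) * 1 := by
          apply mul_le_mul _ h3 (norm_nonneg _) (by positivity)
          refine h1.trans ?_
          gcongr
      _ = C * 13 * (Z ^ 2 / Z ^ D) := by ring
      _ ≤ _ := by
          apply mul_le_mul_of_nonneg_right _ h4
          linarith
  · have hξ0 : ξ ≠ 0 := by
      intro h0
      rw [h0, abs_zero] at hξ
      have : 0 < Z ^ D / h := by positivity
      linarith
    have h1 := norm_four_box_le hh0 hξ0
    have h2 : 1 / (h * |ξ|) ≤ 1 / Z ^ D := by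
      apply one_div_le_one_div_of_le hZD0
      rw [div_lt_iff₀ hh0] at hξ
      linarith
    have h3 := PE_triv hu1 ξ
    have h4 : (u + 1) * (u + 2) + 1 ≤ 2 * Z ^ 2 := by nlinarith
    have h5 : 0 ≤ Z ^ 2 / Z ^ D := by positivity
    calc ‖PS u (2 * π * ξ) - PT u (2 * π * ξ)‖ * ‖𝓕 (boxC h) ξ‖ ≤ (2 * Z ^ 2) * (1 / Z ^ D) := by
          apply mul_le_mul (h3.trans h4) (h1.trans h2) (norm_nonneg _) (by positivity)
      _ = 2 * (Z ^ 2 / Z ^ D) := by ring
      _ ≤ _ := by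
          apply mul_le_mul_of_nonneg_right _ h5
          have : 0 < C * 13 := by positivity
          linarith

lemma sum_sq_le (s : Finset ℕ) (f : ℕ → ℝ) : (∑ u ∈ s, f u) ^ 2 ≤ s.card * ∑ u ∈ s, f u ^ 2 :=
  sq_sum_le_card_mul_sum_sq

lemma aw_sum (w N : ℕ) (hN : 1 ≤ N) :
    ∑ l ∈ Finset.Ioc 0 N, (l : ℝ) * (aw w l / l) ^ 2 ≤ (1 + Real.log N) ^ 4 := by
  refine le_trans (Finset.sum_le_sum fun l hl => ?_) (tau_sq_sum N hN)
  have hl0 : (0 : ℝ) < l := by exact_mod_cast (Finset.mem_Ioc.1 hl).1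
  have h1 : aw w l ^ 2 ≤ (l.divisors.card : ℝ) ^ 2 := by
    rw [← sq_abs]
    have := aw_abs_le w l
    gcongr
  have e : (l : ℝ) * (aw w l / l) ^ 2 = aw w l ^ 2 / l := by field_simp
  rw [e]
  gcongr

theorem KT (A : ℕ) : ∃ c0 Z0 : ℝ, 0 < c0 ∧ 1 ≤ Z0 ∧ ∀ Z lam h : ℝ, Z0 ≤ Z → h = Real.exp (-lam) →
    √Z ≤ lam → lam * Real.log Z ≤ c0 * Z → ∀ N : ℕ, Real.exp (Z + 2) ≤ N →
    ∫ z in Z..(Z + 1), (TT h N z - 1) ^ 2 ≤ 1 / Z ^ A := by
  set D := A + 6 with hD
  obtain ⟨C0, K, hC0, hK, hM⟩ := M_bound D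
  obtain ⟨Cz, hCz, hmz⟩ := m0_bound (2 * D)
  obtain ⟨Cl, hCl, hml⟩ := m1_bound (2 * D)
  set Cd := max Cz Cl with hCd
  have hCd0 : 0 < Cd := lt_of_lt_of_le hCz (le_max_left _ _)
  -- the constants
  set K2 : ℝ := 60 * (Cd + 1) with hK2
  set K3 : ℝ := 2 * K2 ^ 2 + 2 * (28 ^ 2 * K ^ 2 * 7) * 16 with hK3
  have hlim1 : ∀ᶠ Z : ℝ in atTop, 11 * (Z ^ D * Real.exp (-√Z)) ≤ 1 := by
    have h1 := (Real.tendsto_pow_mul_exp_neg_atTop_nhds_zero (2 * D)).comp Real.tendsto_sqrt_atTop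
    have h2 : ∀ᶠ Z : ℝ in atTop, (√Z) ^ (2 * D) * Real.exp (-√Z) < 1 / 11 :=
      h1.eventually_lt_const (by norm_num)
    filter_upwards [h2, eventually_ge_atTop 0] with Z h3 h4
    rw [pow_mul, Real.sq_sqrt h4] at h3
    linarith
  have hlim2 : ∀ᶠ Z : ℝ in atTop, 200 * (Z ^ D * Real.exp (-(Z / 2))) ≤ 1 := by
    have h0 : Tendsto (fun Z : ℝ => Z / 2) atTop atTop := tendsto_id.atTop_div_const (by norm_num)
    have h1 := (Real.tendsto_pow_mul_exp_neg_atTop_nhds_zero D).comp h0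
    have h2 : ∀ᶠ Z : ℝ in atTop, (Z / 2) ^ D * Real.exp (-(Z / 2)) < 1 / (200 * 2 ^ D) :=
      h1.eventually_lt_const (by positivity)
    filter_upwards [h2] with Z h3
    rw [div_pow, lt_div_iff₀ (by positivity)] at h3
    have : Z ^ D / 2 ^ D * Real.exp (-(Z / 2)) * (200 * 2 ^ D) =
      200 * (Z ^ D * Real.exp (-(Z / 2))) := by field_simp
    linarith
  obtain ⟨Z1, hZ1⟩ := (hlim1.and hlim2).exists_forall_of_atTop
  refine ⟨min (1 / 12) (1 / (4 * C0)), max (max Z1 K3) 20, by positivity, by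
    refine le_trans ?_ (le_max_right _ _); norm_num, fun Z lam h hZ hh hlam1 hlam2 N hN => ?_⟩
  have hZ20 : 20 ≤ Z := (le_max_right _ _).trans hZ
  have hZK : K3 ≤ Z := ((le_max_right _ _).trans (le_max_left _ _)).trans hZ
  obtain ⟨hE1, hE2⟩ := hZ1 Z (((le_max_left _ _).trans (le_max_left _ _)).trans hZ)
  have hZ0 : 0 < Z := by linarith
  have hZD0 : 0 < Z ^ D := by positivity
  have hh0 : 0 < h := by rw [hh]; exact Real.exp_pos _
  have hsq1 : 1 ≤ √Z := by rw [Real.one_le_sqrt]; linarith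
  have hlam0 : 1 ≤ lam := hsq1.trans hlam1
  have hh1 : h ≤ 1 := by rw [hh]; exact Real.exp_le_one_iff.2 (by linarith)
  have hlogZ : 1 ≤ Real.log Z := by
    rw [Real.le_log_iff_exp_le hZ0]
    linarith [Real.exp_one_lt_d9]
  have hlam12 : lam ≤ Z / 12 := by
    calc lam ≤ lam * Real.log Z := by nlinarith
      _ ≤ min (1 / 12) (1 / (4 * C0)) * Z := hlam2
      _ ≤ 1 / 12 * Z := by gcongr; exact min_le_left _ _
      _ = _ := by ring
  -- parameters
  set w := ⌈Real.exp lam⌉₊ with hw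
  have hw1 : Real.exp lam ≤ w := Nat.le_ceil _
  have hw2 : (w : ℝ) ≤ 2 * Real.exp lam := by
    have h1 : (w : ℝ) < Real.exp lam + 1 := Nat.ceil_lt_add_one (Real.exp_pos _).le
    have h2 : 1 ≤ Real.exp lam := Real.one_le_exp (by linarith)
    linarith
  have hw0 : (0 : ℝ) < w := lt_of_lt_of_le (Real.exp_pos _) hw1
  have hwn : 2 ≤ w := by
    have h2 : (2 : ℝ) ≤ w := by
      refine le_trans ?_ hw1
      have := Real.add_one_le_exp lam
      linarith
    exact_mod_cast h2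
  have hlw1 : lam ≤ Real.log w := by rw [Real.le_log_iff_exp_le hw0]; exact hw1
  have hlw2 : Real.log w ≤ lam + 1 := by
    rw [Real.log_le_iff_le_exp hw0, Real.exp_add]
    have h1 : (2 : ℝ) ≤ Real.exp 1 := by linarith [Real.exp_one_gt_d9]
    have h2 := mul_le_mul_of_nonneg_left h1 (Real.exp_pos lam).le
    linarith
  set u0 := ⌈C0 * lam * Real.log Z⌉₊ with hu0
  have hu0a : C0 * lam * Real.log Z ≤ u0 := Nat.le_ceil _
  have hu0pos : 0 < C0 * lam * Real.log Z := by positivity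
  have hu0b : (u0 : ℝ) ≤ Z / 4 + 1 := by
    have h1 : (u0 : ℝ) < C0 * lam * Real.log Z + 1 := Nat.ceil_lt_add_one hu0pos.le
    have h2 : C0 * lam * Real.log Z ≤ Z / 4 := by
      calc C0 * lam * Real.log Z = C0 * (lam * Real.log Z) := by ring
        _ ≤ C0 * (min (1 / 12) (1 / (4 * C0)) * Z) := by gcongr
        _ ≤ C0 * (1 / (4 * C0) * Z) := by gcongr; exact min_le_right _ _
        _ = _ := by field_simp
    linarith
  have hu01 : 1 ≤ u0 := Nat.ceil_pos.2 hu0pos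
  set U := ⌈Z + 2⌉₊ with hU
  have hU1 : Z + 2 ≤ U := Nat.le_ceil _
  have hU2 : (U : ℝ) ≤ Z + 3 := by
    have := Nat.ceil_lt_add_one (show 0 ≤ Z + 2 by linarith)
    linarith
  have hu0U : u0 ≤ U := by
    have : (u0 : ℝ) ≤ U := by linarith
    exact_mod_cast this
  set N' := ⌈Real.exp ((U : ℝ) + 1)⌉₊ with hN'
  have hN'1 : Real.exp ((U : ℝ) + 1) ≤ N' := Nat.le_ceil _
  have hN'0 : (0 : ℝ) < N' := lt_of_lt_of_le (Real.exp_pos _) hN'1
  have hN'n : 1 ≤ N' := by exact_mod_cast (Nat.ceil_pos.2 (Real.exp_pos _))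
  have hN'2 : Real.log N' ≤ Z + 5 := by
    rw [Real.log_le_iff_le_exp hN'0]
    have h1 : (N' : ℝ) < Real.exp ((U : ℝ) + 1) + 1 := Nat.ceil_lt_add_one (Real.exp_pos _).le
    have h2 : Real.exp ((U : ℝ) + 1) ≤ Real.exp (Z + 4) := Real.exp_le_exp.2 (by linarith)
    have h3 : Real.exp (Z + 5) = Real.exp (Z + 4) * Real.exp 1 := by
      rw [← Real.exp_add]; congr 1; ring
    have h4 : 1 ≤ Real.exp (Z + 4) := Real.one_le_exp (by linarith)
    have h5 : (2 : ℝ) ≤ Real.exp 1 := by linarith [Real.exp_one_gt_d9]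
    have h6 := mul_le_mul_of_nonneg_left h5 (Real.exp_pos (Z + 4)).le
    rw [h3]
    linarith
  -- smallness of the Moebius sums
  set δ := Cd / Z ^ D with hδ
  have hpowD : Z ^ D ≤ Real.log w ^ (2 * D) := by
    rw [pow_mul]
    have h1 : Z ≤ Real.log w ^ 2 := by
      have h2 : √Z ≤ Real.log w := hlam1.trans hlw1
      calc Z = √Z ^ 2 := (Real.sq_sqrt hZ0.le).symm
        _ ≤ _ := by gcongr
    gcongr
  have hδ1 : |mz w| ≤ δ := by
    refine (hmz w hwn).trans ?_
    have : Cz ≤ Cd := le_max_left _ _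
    rw [hδ]
    gcongr
  have hδ2 : |ml w + 1| ≤ δ := by
    refine (hml w hwn).trans ?_
    have : Cl ≤ Cd := le_max_right _ _
    rw [hδ]
    gcongr
  have hexp : Real.exp (-lam) ≤ 1 / Z ^ D := by
    rw [le_div_iff₀ hZD0]
    have h1 : Real.exp (-lam) ≤ Real.exp (-√Z) := Real.exp_le_exp.2 (by linarith)
    have h2 : Real.exp (-lam) * Z ^ D ≤ Real.exp (-√Z) * Z ^ D :=
      mul_le_mul_of_nonneg_right h1 hZD0.le
    have h3 : 0 ≤ Z ^ D * Real.exp (-√Z) := by positivity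
    linarith
  have hexp2 : 200 * Real.exp (-(Z / 2)) ≤ 1 / Z ^ D := by
    rw [le_div_iff₀ hZD0]
    linarith
  have hε : w * (32 * Real.exp (u0 - Z) / h ^ 2) ≤ 1 / Z ^ D := by
    refine le_trans ?_ hexp2
    have e1 : w * (32 * Real.exp (u0 - Z) / h ^ 2) = w * 32 * Real.exp (u0 - Z) * Real.exp (2 * lam) := by
      rw [hh, ← Real.exp_nat_mul, div_eq_mul_inv, ← Real.exp_neg]
      have : -(((2 : ℕ) : ℝ) * -lam) = 2 * lam := by push_cast; ring
      rw [this]
      ring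
    rw [e1]
    calc w * 32 * Real.exp (u0 - Z) * Real.exp (2 * lam) ≤
          (2 * Real.exp lam) * 32 * Real.exp (u0 - Z) * Real.exp (2 * lam) := by gcongr
      _ = 64 * (Real.exp lam * Real.exp (u0 - Z) * Real.exp (2 * lam)) := by ring
      _ = 64 * Real.exp (3 * lam + u0 - Z) := by
          rw [← Real.exp_add, ← Real.exp_add]
          congr 2
          ring
      _ ≤ 64 * Real.exp (-(Z / 2) + 1) :=
          mul_le_mul_of_nonneg_left (Real.exp_le_exp.2 (by linarith)) (by norm_num)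
      _ = 64 * Real.exp 1 * Real.exp (-(Z / 2)) := by rw [Real.exp_add]; ring
      _ ≤ 200 * Real.exp (-(Z / 2)) := by
          have := Real.exp_one_lt_d9
          gcongr
          linarith
  have hε2 : 4 * w / Real.exp (Z - u0 - 2) ≤ 1 / Z ^ D := by
    refine le_trans ?_ hexp2
    have e1 : 4 * w / Real.exp (Z - u0 - 2) = 4 * w * Real.exp (-(Z - u0 - 2)) := by
      rw [Real.exp_neg, div_eq_mul_inv]
    rw [e1]
    calc 4 * w * Real.exp (-(Z - u0 - 2)) ≤ 4 * (2 * Real.exp lam) * Real.exp (-(Z - u0 - 2)) := by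
          gcongr
      _ = 8 * Real.exp (lam + (-(Z - u0 - 2))) := by rw [Real.exp_add]; ring
      _ ≤ 8 * Real.exp (-(Z / 2) + 3) :=
          mul_le_mul_of_nonneg_left (Real.exp_le_exp.2 (by linarith)) (by norm_num)
      _ = 8 * Real.exp 1 ^ 3 * Real.exp (-(Z / 2)) := by
          rw [Real.exp_add, ← Real.exp_nat_mul]
          push_cast
          ring_nf
      _ ≤ 200 * Real.exp (-(Z / 2)) := by
          have h1 := Real.exp_one_lt_d9
          have h2 : Real.exp 1 ^ 3 ≤ 2.72 ^ 3 :=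
            pow_le_pow_left₀ (Real.exp_pos 1).le (by linarith) 3
          apply mul_le_mul_of_nonneg_right _ (Real.exp_pos _).le
          linarith
  -- the pointwise error
  set F := fun z : ℝ => ∑ u ∈ Finset.Icc u0 U, FF u h N' (Finset.Ioc 0 N')
    (fun l => aw w l / l) z with hF
  have hpt : ∀ z, Z ≤ z → z ≤ Z + 1 → |TT h N z - 1 - F z| ≤ K2 * (Z ^ 2 / Z ^ D) := by
    intro z hz1 hz2
    have hzN : Real.exp (z + h) ≤ N := le_trans (Real.exp_le_exp.2 (by linarith)) hN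
    have hzN' : Real.exp (z + h) ≤ N' := le_trans (Real.exp_le_exp.2 (by linarith)) hN'1
    rw [TT_indep hh0 hzN' hzN]
    have h1 := KT_ineq hh0 hh1 w N' u0 U (by omega) hz1 hz2 hu01 hu0U hU1 hN'1 (by linarith)
      hδ1 hδ2
    refine h1.trans ?_
    set ι := 1 / Z ^ D with hι
    have hι0 : 0 < ι := by positivity
    have eδ : δ = Cd * ι := by rw [hδ, hι]; ring
    have t1 : (z + 1) * δ ≤ (2 * Z) * (Cd * ι) := by rw [eδ]; gcongr; linarith
    have t2 : h * (1 + Real.log w) ≤ ι * (2 * Z) := by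
      apply mul_le_mul _ (by linarith) (by linarith) hι0.le
      rw [hh]; exact hexp
    have t3 : (1 + z) * (w * (32 * Real.exp (u0 - Z) / h ^ 2)) ≤ (2 * Z) * ι := by
      apply mul_le_mul (by linarith) hε (by positivity) (by positivity)
    have t4 : u0 * (1 + u0) * (δ + w * (32 * Real.exp (u0 - Z) / h ^ 2)) ≤
        Z ^ 2 * (Cd * ι + ι) := by
      rw [eδ]
      apply mul_le_mul _ (by linarith) (by positivity) (by positivity)
      have h5 : (1 : ℝ) ≤ u0 := by exact_mod_cast hu01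
      rw [sq]
      exact mul_le_mul (by linarith) (by linarith) (by linarith) hZ0.le
    have t5 : 3 * ((Real.log N' + 2) * δ + 4 * w / (Real.exp (Z - u0 - 2))) ≤
        3 * ((2 * Z) * (Cd * ι) + ι) := by
      rw [eδ]
      gcongr
      linarith
    have e : K2 * (Z ^ 2 / Z ^ D) = 60 * (Cd + 1) * Z ^ 2 * ι := by rw [hK2, hι]; ring
    rw [e]
    have hZZ : Z ≤ Z ^ 2 := by
      rw [sq]
      exact le_mul_of_one_le_left hZ0.le (by linarith)
    have h11 : 1 ≤ Z ^ 2 := by linarith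
    have hCι : 0 < Cd * ι := by positivity
    have f1 : Z * (Cd * ι) ≤ Z ^ 2 * (Cd * ι) := mul_le_mul_of_nonneg_right hZZ hCι.le
    have f2 : Z * ι ≤ Z ^ 2 * ι := mul_le_mul_of_nonneg_right hZZ hι0.le
    have f3 : 1 * ι ≤ Z ^ 2 * ι := mul_le_mul_of_nonneg_right h11 hι0.le
    have f4 : 0 ≤ Z ^ 2 * (Cd * ι) := by positivity
    have f5 : 0 ≤ Z ^ 2 * ι := by positivity
    have e2 : 60 * (Cd + 1) * Z ^ 2 * ι = 60 * (Z ^ 2 * (Cd * ι)) + 60 * (Z ^ 2 * ι) := by ring
    rw [e2]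
    linarith
  -- the mean square
  have hFint : Integrable fun z => F z ^ 2 := by
    have hc : Continuous F := by
      apply continuous_finsetSum
      intro u _
      exact FF_continuous hh0 u N' _ _
    have hdom : Integrable fun z => ((Finset.Icc u0 U).card : ℝ) * ∑ u ∈ Finset.Icc u0 U,
        FF u h N' (Finset.Ioc 0 N') (fun l => aw w l / l) z ^ 2 :=
      (integrable_finsetSum _ fun (u : ℕ) _ => FF_sq_integrable hh0 u N' _ _).const_mul _
    refine hdom.mono' (hc.pow 2).aestronglyMeasurable (Eventually.of_forall fun z => ?_)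
    rw [Real.norm_of_nonneg (by positivity)]
    exact sum_sq_le _ _
  have hFsq : ∫ z, F z ^ 2 ≤ 28 ^ 2 * K ^ 2 * 7 * 16 * (Z ^ 10 / (Z ^ D) ^ 2) := by
    have h1 : ∫ z, F z ^ 2 ≤ ∫ z, ((Finset.Icc u0 U).card : ℝ) * ∑ u ∈ Finset.Icc u0 U,
        FF u h N' (Finset.Ioc 0 N') (fun l => aw w l / l) z ^ 2 := by
      apply integral_mono hFint
      · exact (integrable_finsetSum _ fun (u : ℕ) _ => FF_sq_integrable hh0 u N' _ _).const_mul _
      · intro z
        exact sum_sq_le _ _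
    refine h1.trans ?_
    rw [integral_const_mul, integral_finsetSum _ fun (u : ℕ) _ => FF_sq_integrable hh0 u N' _ _]
    have h2 : ∀ u ∈ Finset.Icc u0 U, ∫ z, FF u h N' (Finset.Ioc 0 N') (fun l => aw w l / l) z ^ 2 ≤
        (K * (Z ^ 2 / Z ^ D)) ^ 2 * (7 * (2 * Z) ^ 4) := by
      intro u hu
      rw [Finset.mem_Icc] at hu
      have hu1 : (u0 : ℝ) ≤ u := by exact_mod_cast hu.1
      have hu2 : (u : ℝ) ≤ U := by exact_mod_cast hu.2
      have hu3 : (1 : ℝ) ≤ u := by exact_mod_cast hu01.trans hu.1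
      have h3 := dispersion (u := (u : ℝ)) hu3 hh0 N' (by
        refine le_trans (Real.exp_le_exp.2 ?_) hN'1
        linarith) (Finset.Ioc 0 N') (fun l => aw w l / l)
        (M := K * (Z ^ 2 / Z ^ D)) (by positivity)
        (hM Z lam h u hZ20 hE1 hlam1 (by linarith) hh hu3 (hu0a.trans hu1) (by linarith))
      refine h3.trans ?_
      apply mul_le_mul_of_nonneg_left _ (by positivity)
      refine (bb_sq_le hh0 hh1 (Finset.Ioc 0 N') _ (fun l hl => (Finset.mem_Ioc.1 hl).1) ?_).trans ?_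
      · intro l hl hne
        have hl0 := (Finset.mem_Ioc.1 hl).1
        have hlw : w < l := by
          by_contra hc
          apply hne
          change aw w l / l = 0
          rw [aw_zero_of hl0 (not_lt.1 hc), zero_div]
        have h4 : Real.exp lam ≤ l := hw1.trans (by exact_mod_cast hlw.le)
        rw [hh]
        calc (1 : ℝ) = Real.exp (-lam) * Real.exp lam := by rw [← Real.exp_add]; simp
          _ ≤ _ := by gcongr
      · have h4 := aw_sum w N' hN'n
        have h5 : 0 ≤ Real.log N' := Real.log_nonneg (by exact_mod_cast hN'n)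
        have h6 : (1 + Real.log N') ^ 4 ≤ (2 * Z) ^ 4 := by
          gcongr
          linarith
        linarith
    have h3 : ((Finset.Icc u0 U).card : ℝ) ≤ 2 * Z := by
      rw [Nat.card_Icc]
      have h4 : ((U + 1 - u0 : ℕ) : ℝ) ≤ ((U : ℕ) : ℝ) := by
        exact_mod_cast (by omega : U + 1 - u0 ≤ U)
      linarith
    have h4 : ∑ u ∈ Finset.Icc u0 U, ∫ z, FF u h N' (Finset.Ioc 0 N') (fun l => aw w l / l) z ^ 2 ≤
        (2 * Z) * ((K * (Z ^ 2 / Z ^ D)) ^ 2 * (7 * (2 * Z) ^ 4)) := by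
      refine (Finset.sum_le_sum h2).trans ?_
      rw [Finset.sum_const, nsmul_eq_mul]
      gcongr
    calc _ ≤ (2 * Z) * ((2 * Z) * ((K * (Z ^ 2 / Z ^ D)) ^ 2 * (7 * (2 * Z) ^ 4))) := by
          apply mul_le_mul h3 h4 _ (by positivity)
          exact Finset.sum_nonneg fun u _ => integral_nonneg fun z => by positivity
      _ = 64 * K ^ 2 * 7 * (Z ^ 10 / (Z ^ D) ^ 2) := by field_simp; ring
      _ ≤ _ := by
          have : 0 ≤ Z ^ 10 / (Z ^ D) ^ 2 := by positivity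
          have h5 : 64 * K ^ 2 * 7 ≤ 28 ^ 2 * K ^ 2 * 7 * 16 := by linarith [sq_nonneg K]
          exact mul_le_mul_of_nonneg_right h5 this
  -- conclusion
  have hTc := TT_continuous h N
  have h1 : ∫ z in Z..(Z + 1), (TT h N z - 1) ^ 2 ≤
      ∫ z in Z..(Z + 1), (2 * (K2 * (Z ^ 2 / Z ^ D)) ^ 2 + 2 * F z ^ 2) := by
    apply intervalIntegral.integral_mono_on (by linarith)
    · exact ((hTc.sub continuous_const).pow 2).intervalIntegrable _ _
    · exact (intervalIntegrable_const).add ((hFint.const_mul 2).intervalIntegrable)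
    · intro z hz
      have h2 := hpt z hz.1 hz.2
      have h3 : TT h N z - 1 = (TT h N z - 1 - F z) + F z := by ring
      have h4 : (TT h N z - 1 - F z) ^ 2 ≤ (K2 * (Z ^ 2 / Z ^ D)) ^ 2 := by
        rw [← sq_abs]
        exact pow_le_pow_left₀ (abs_nonneg _) h2 2
      rw [h3]
      have h5 := sq_nonneg ((TT h N z - 1 - F z) - F z)
      have h6 : ((TT h N z - 1 - F z) + F z) ^ 2 = 2 * (TT h N z - 1 - F z) ^ 2 + 2 * F z ^ 2 -
        ((TT h N z - 1 - F z) - F z) ^ 2 := by ring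
      rw [h6]
      linarith
  refine h1.trans ?_
  rw [intervalIntegral.integral_add intervalIntegrable_const ((hFint.const_mul 2).intervalIntegrable),
    intervalIntegral.integral_const, intervalIntegral.integral_const_mul, smul_eq_mul]
  have h2 : ∫ z in Z..(Z + 1), F z ^ 2 ≤ ∫ z, F z ^ 2 := by
    rw [intervalIntegral.integral_of_le (by linarith)]
    exact setIntegral_le_integral hFint (Eventually.of_forall fun z => by
      simp only [Pi.zero_apply]; positivity)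
  have h3 : (Z + 1 - Z) * (2 * (K2 * (Z ^ 2 / Z ^ D)) ^ 2) ≤ 2 * K2 ^ 2 * (Z ^ 10 / (Z ^ D) ^ 2) := by
    have e : (Z + 1 - Z) * (2 * (K2 * (Z ^ 2 / Z ^ D)) ^ 2) = 2 * K2 ^ 2 * (Z ^ 4 / (Z ^ D) ^ 2) := by
      field_simp
      ring
    rw [e]
    have : Z ^ 4 ≤ Z ^ 10 := pow_le_pow_right₀ (by linarith) (by norm_num)
    gcongr
  have h4 : Z ^ 10 / (Z ^ D) ^ 2 * K3 ≤ 1 / Z ^ A := by
    calc Z ^ 10 / (Z ^ D) ^ 2 * K3 ≤ Z ^ 10 / (Z ^ D) ^ 2 * Z := by gcongr
      _ = Z ^ 11 / Z ^ (2 * A + 12) := by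
          rw [← pow_mul, hD]
          rw [show (A + 6) * 2 = 2 * A + 12 by ring]
          ring
      _ ≤ 1 / Z ^ A := by
          rw [div_le_div_iff₀ (by positivity) (by positivity), one_mul, ← pow_add]
          exact pow_le_pow_right₀ (by linarith) (by omega)
  calc _ ≤ 2 * K2 ^ 2 * (Z ^ 10 / (Z ^ D) ^ 2) +
        2 * (28 ^ 2 * K ^ 2 * 7 * 16 * (Z ^ 10 / (Z ^ D) ^ 2)) := by
        apply add_le_add h3
        gcongr
        exact h2.trans hFsq
    _ = Z ^ 10 / (Z ^ D) ^ 2 * K3 := by rw [hK3]; ring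
    _ ≤ _ := h4

end Pool.Agent.W66
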