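import Pool.Agent.H49.G.R_seed8.W66.LC
import Pool.Agent.H49.G.R_seed8.W66.PG2
import Pool.Agent.H49.G.R_seed8.W66.PH

set_option autoImplicit false

/-!
# Mean square of a smoothed character convolution through Plancherel
-/

open Complex Filter Topology Set MeasureTheory Metric
open scoped Real FourierTransform Convolution
open scoped ArithmeticFunction.vonMangoldt

namespace Pool.Agent.W66L

open Pool.Agent.W66

variable {Q : ℕ} [NeZero Q]

/-- `Σ c_l box (x - log l)` -/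
noncomputable def bbC (h : ℝ) (L : Finset ℕ) (c : ℕ → ℂ) (x : ℝ) : ℂ :=
  ∑ l ∈ L, c l * boxC h (x - Real.log l)

/-- `Σ c_l tri (x - log l)` -/
noncomputable def ggC (h : ℝ) (L : Finset ℕ) (c : ℕ → ℂ) (x : ℝ) : ℂ :=
  ∑ l ∈ L, c l * triC h (x - Real.log l)

/-- the primes near `e^u`, twisted and convolved with `c` -/
noncomputable def FX (χ : DirichletCharacter ℂ Q) (u h : ℝ) (N : ℕ) (L : Finset ℕ) (c : ℕ → ℂ)
    (x : ℝ) : ℂ :=
  ∑ n ∈ Finset.Ioc 0 N, (χ n * ((Λ n / n * hat (u - Real.log n) : ℝ) : ℂ)) *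
    ggC h L c (x - Real.log n)

lemma triC_continuous (h : ℝ) : Continuous (triC h) := by
  unfold triC
  exact Complex.continuous_ofReal.comp (tri_continuous h)

lemma triC_compact {h : ℝ} (hh : 0 < h) : HasCompactSupport (triC h) := by
  have := (tri_hasCompactSupport hh).comp_left (g := fun r : ℝ => (r : ℂ)) (by simp)
  exact this

lemma ggC_continuous (h : ℝ) (L : Finset ℕ) (c : ℕ → ℂ) : Continuous (ggC h L c) := by
  unfold ggC
  apply continuous_finsetSum
  intro l _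
  exact continuous_const.mul ((triC_continuous h).comp (by fun_prop))

lemma sum_compact {f : ℝ → ℂ} (hf : HasCompactSupport f) (s : Finset ℕ) (c : ℕ → ℂ) (a : ℕ → ℝ) :
    HasCompactSupport fun x => ∑ i ∈ s, c i * f (x - a i) := by
  induction s using Finset.induction_on with
  | empty =>
    simp only [Finset.sum_empty]
    exact HasCompactSupport.zero
  | insert b s hb ih =>
    have h1 : HasCompactSupport fun x => c b * f (x - a b) := by
      have := hf.comp_homeomorph (Homeomorph.subRight (a b))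
      exact this.mul_left
    have h2 : (fun x => ∑ i ∈ insert b s, c i * f (x - a i)) =
      (fun x => c b * f (x - a b)) + fun x => ∑ i ∈ s, c i * f (x - a i) := by
      ext x
      rw [Finset.sum_insert hb]
      rfl
    rw [h2]
    exact h1.add ih

lemma ggC_compact {h : ℝ} (hh : 0 < h) (L : Finset ℕ) (c : ℕ → ℂ) :
    HasCompactSupport (ggC h L c) := sum_compact (triC_compact hh) L c _

lemma ggC_integrable {h : ℝ} (hh : 0 < h) (L : Finset ℕ) (c : ℕ → ℂ) : Integrable (ggC h L c) :=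
  (ggC_continuous h L c).integrable_of_hasCompactSupport (ggC_compact hh L c)

omit [NeZero Q] in
lemma FX_continuous (χ : DirichletCharacter ℂ Q) (h u : ℝ) (N : ℕ) (L : Finset ℕ) (c : ℕ → ℂ) :
    Continuous (FX χ u h N L c) := by
  unfold FX
  apply continuous_finsetSum
  intro n _
  exact continuous_const.mul ((ggC_continuous h L c).comp (by fun_prop))

omit [NeZero Q] in
lemma FX_compact (χ : DirichletCharacter ℂ Q) {h : ℝ} (hh : 0 < h) (u : ℝ) (N : ℕ) (L : Finset ℕ)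
    (c : ℕ → ℂ) : HasCompactSupport (FX χ u h N L c) := sum_compact (ggC_compact hh L c) _ _ _

omit [NeZero Q] in
lemma FX_sq_integrable (χ : DirichletCharacter ℂ Q) {h : ℝ} (hh : 0 < h) (u : ℝ) (N : ℕ)
    (L : Finset ℕ) (c : ℕ → ℂ) : Integrable fun x => ‖FX χ u h N L c x‖ ^ 2 := by
  apply ((FX_continuous χ h u N L c).norm.pow 2).integrable_of_hasCompactSupport
  have h1 := (FX_compact χ hh u N L c).norm
  have h2 : ((fun x => ‖FX χ u h N L c x‖) ^ 2) =
      fun x => ‖FX χ u h N L c x‖ * ‖FX χ u h N L c x‖ := by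
    ext x
    simp only [Pi.pow_apply]
    ring
  rw [h2]
  exact h1.mul_left

omit [NeZero Q] in
lemma PX_fin (χ : DirichletCharacter ℂ Q) (u ξ : ℝ) (N : ℕ) (hN : Real.exp (u + 1) ≤ N) :
    PX χ u (2 * π * ξ) = ∑ n ∈ Finset.Ioc 0 N,
      (χ n * ((Λ n / n * hat (u - Real.log n) : ℝ) : ℂ)) *
        cexp (-(((2 * π * ξ * Real.log n : ℝ) : ℂ) * I)) := by
  unfold PX
  rw [tsum_eq_sum (s := Finset.Ioc 0 N)]
  · apply Finset.sum_congr rfl
    intro n hn
    rw [Finset.mem_Ioc] at hn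
    rw [LSeries.term_of_ne_zero hn.1.ne']
    have hnc : (n : ℂ) ≠ 0 := by exact_mod_cast hn.1.ne'
    have h1 : (n : ℂ) ^ (⟨1, 2 * π * ξ⟩ : ℂ) = (n : ℂ) * cexp (((2 * π * ξ * Real.log n : ℝ) : ℂ) * I) := by
      have e : (⟨1, 2 * π * ξ⟩ : ℂ) = 1 + ((2 * π * ξ : ℝ) : ℂ) * I := by
        apply Complex.ext <;> simp
      rw [e, Complex.cpow_add _ _ hnc, Complex.cpow_one, Complex.cpow_def_of_ne_zero hnc,
        ← Complex.natCast_log]
      congr 2
      push_cast
      ring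
    rw [h1, Complex.exp_neg]
    unfold Xa
    have h2 := Complex.exp_ne_zero (((2 * π * ξ * Real.log n : ℝ) : ℂ) * I)
    rw [Pi.mul_apply]
    push_cast
    field_simp
  · intro n hn
    rcases Nat.eq_zero_or_pos n with rfl | hn0
    · simp
    · rw [Finset.mem_Ioc] at hn
      have h1 : N < n := by
        by_contra hc
        exact hn ⟨hn0, by omega⟩
      have h2 : u + 1 ≤ Real.log n := by
        rw [Real.le_log_iff_exp_le (by exact_mod_cast hn0)]
        refine hN.trans ?_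
        exact_mod_cast h1.le
      rw [hat_zero_of, Complex.ofReal_zero, mul_zero]
      rw [abs_of_nonpos (by linarith)]
      linarith

omit [NeZero Q] in
theorem four_FX (χ : DirichletCharacter ℂ Q) {u h : ℝ} (hh : 0 < h) (N : ℕ)
    (hN : Real.exp (u + 1) ≤ N) (L : Finset ℕ) (c : ℕ → ℂ) (ξ : ℝ) :
    𝓕 (FX χ u h N L c) ξ = PX χ u (2 * π * ξ) * 𝓕 (boxC h) ξ * 𝓕 (bbC h L c) ξ := by
  have h1 : 𝓕 (ggC h L c) ξ =
      (∑ l ∈ L, c l * cexp (-(((2 * π * ξ * Real.log l : ℝ) : ℂ) * I))) * 𝓕 (boxC h) ξ ^ 2 := by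
    rw [← four_triC hh, ← four_sum (triC_integrable hh)]
    rfl
  have h2 : 𝓕 (bbC h L c) ξ =
      (∑ l ∈ L, c l * cexp (-(((2 * π * ξ * Real.log l : ℝ) : ℂ) * I))) * 𝓕 (boxC h) ξ := by
    rw [← four_sum (boxC_integrable h)]
    rfl
  have h3 : 𝓕 (FX χ u h N L c) ξ = PX χ u (2 * π * ξ) * 𝓕 (ggC h L c) ξ := by
    rw [PX_fin χ u ξ N hN, ← four_sum (ggC_integrable hh L c)]
    rfl
  rw [h3, h1, h2]
  ring

lemma bbC_integrable (h : ℝ) (L : Finset ℕ) (c : ℕ → ℂ) : Integrable (bbC h L c) :=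
  integrable_finsetSum _ fun l _ => ((boxC_integrable h).comp_sub_right (Real.log l)).const_mul _

lemma boxC_memLp (h : ℝ) : MemLp (boxC h) 2 := by
  have hboxL : MemLp (box h) 2 := by
    rw [box_eq]
    exact memLp_indicator_const 2 measurableSet_Icc _ (Or.inr (by simp))
  exact hboxL.ofReal

lemma bbC_memLp (h : ℝ) (L : Finset ℕ) (c : ℕ → ℂ) : MemLp (bbC h L c) 2 := by
  unfold bbC
  apply memLp_finsetSum
  intro l _
  exact ((boxC_memLp h).comp_measurePreserving
    (measurePreserving_sub_right volume (Real.log l))).const_mul _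

lemma lint_sq {f : ℝ → ℂ} (hf : MemLp f 2) :
    ∫⁻ x, ‖f x‖ₑ ^ 2 = ENNReal.ofReal (∫ x, ‖f x‖ ^ 2) := by
  rw [ofReal_integral_eq_lintegral_ofReal ((memLp_two_iff_integrable_sq_norm hf.1).1 hf)
    (Eventually.of_forall fun x => by
    simp only [Pi.zero_apply]; positivity)]
  congr 1
  ext x
  rw [← ofReal_norm, ← ENNReal.ofReal_pow (norm_nonneg _)]

omit [NeZero Q] in
theorem dispersionX (χ : DirichletCharacter ℂ Q) {u h : ℝ} (hh : 0 < h) (N : ℕ)
    (hN : Real.exp (u + 1) ≤ N) (L : Finset ℕ) (c : ℕ → ℂ) {M : ℝ} (hM0 : 0 ≤ M)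
    (hM : ∀ ξ : ℝ, ‖PX χ u (2 * π * ξ)‖ * ‖𝓕 (boxC h) ξ‖ ≤ M) :
    ∫ x, ‖FX χ u h N L c x‖ ^ 2 ≤ M ^ 2 * ∫ x, ‖bbC h L c x‖ ^ 2 := by
  have hFc := FX_continuous χ h u N L c
  have hFs := FX_compact χ hh u N L c
  have hbL := bbC_memLp h L c
  have hFL : MemLp (FX χ u h N L c) 2 := hFc.memLp_of_hasCompactSupport hFs
  have hFint : Integrable (FX χ u h N L c) := hFc.integrable_of_hasCompactSupport hFs
  have p1 := Pool.Agent.Helper76.NormalHP.plancherel_lintegral _ hFint hFL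
  have p2 := Pool.Agent.Helper76.NormalHP.plancherel_lintegral _ (bbC_integrable h L c) hbL
  have key : ∫⁻ x, ‖FX χ u h N L c x‖ₑ ^ 2 ≤
      ENNReal.ofReal (M ^ 2) * ∫⁻ x, ‖bbC h L c x‖ₑ ^ 2 := by
    rw [← p1, ← p2, ← lintegral_const_mul' _ _ (by simp)]
    apply lintegral_mono
    intro ξ
    simp only
    rw [four_FX χ hh N hN, enorm_mul, mul_pow, ENNReal.ofReal_pow hM0]
    gcongr
    rw [← ofReal_norm, norm_mul]
    exact ENNReal.ofReal_le_ofReal (hM ξ)
  rw [lint_sq hFL, lint_sq hbL, ← ENNReal.ofReal_mul (by positivity)] at key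
  refine (ENNReal.ofReal_le_ofReal_iff ?_).1 key
  apply mul_nonneg (by positivity)
  exact integral_nonneg fun x => by positivity

end Pool.Agent.W66L
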