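import Pool.Agent.H49.G.R_seed8.W66.PA

set_option autoImplicit false

/-!
# The hat weighted sum over primes: definitions
-/

open Complex Filter Topology Set MeasureTheory Metric
open scoped Real FourierTransform

namespace Pool.Agent.W66

/-- von Mangoldt as a complex sequence -/
noncomputable def La (n : ℕ) : ℂ := (ArithmeticFunction.vonMangoldt n : ℂ)

/-- `Σ Λ(n) n^{-1-iξ₀} hat(u - log n)` -/
noncomputable def PS (u ξ₀ : ℝ) : ℂ :=
  ∑' n : ℕ, LSeries.term La ⟨1, ξ₀⟩ n * ((hat (u - Real.log n) : ℝ) : ℂ)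

/-- `∫ e^{-iξ₀v} hat(u - v)` -/
noncomputable def PT (u ξ₀ : ℝ) : ℂ :=
  ∫ v in Ioi (0 : ℝ), cexp (-(((ξ₀ * v : ℝ) : ℂ) * I)) * ((hat (u - v) : ℝ) : ℂ)

end Pool.Agent.W66
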