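import Pool.Agent.H49.G.R_seed8.W66.ZA

set_option autoImplicit false

/-!
# The classical zero free region of the zeta function: extraction of zeros, the 3-4-1 inequality
-/

open Complex Filter Topology Set MeasureTheory Metric

namespace Pool.Agent.W66

open H370 H370.Loc

lemma Pf_logDeriv_eq {s : Multiset ℂ} {z : ℂ} (h : ∀ ρ ∈ s, z ≠ ρ) :
    logDeriv (Pf s) z = (s.map (fun ρ => 1 / (z - ρ))).sum := by
  induction s using Multiset.induction_on with
  | empty =>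
    have : Pf 0 = fun _ => (1 : ℂ) := funext Pf_zero
    rw [this]
    simp [logDeriv]
  | cons ρ s ih =>
    have : Pf (ρ ::ₘ s) = fun z => (z - ρ) * Pf s z := funext (Pf_cons ρ s)
    have hz : z - ρ ≠ 0 := sub_ne_zero.2 (h ρ (Multiset.mem_cons_self ρ s))
    have hP : Pf s z ≠ 0 := Pf_ne_zero fun ρ' h' => h ρ' (Multiset.mem_cons_of_mem h')
    have e1 : logDeriv (fun z => (z - ρ) * Pf s z) z =
        logDeriv (fun z => z - ρ) z + logDeriv (Pf s) z :=
      logDeriv_mul z hz hP (differentiableAt_id.sub_const ρ) (Pf_diff s z)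
    rw [this, e1, Multiset.map_cons, Multiset.sum_cons,
      ih fun ρ' h' => h ρ' (Multiset.mem_cons_of_mem h')]
    congr 1
    rw [logDeriv_apply]
    congr 1
    simp

/-- the logarithmic derivative near a point, with its zeros -/
lemma landau_re {f : ℂ → ℂ} {c : ℂ} {r r1 r2 R M : ℝ} (hr2 : 0 < r2) (h21 : r2 < r1)
    (h1r : r1 < r) (hrR : r < R) (hRr : R ≤ 2 * r) (hM : 1 ≤ M) (hMf : ‖f c‖ ≤ M)
    (hf : AnalyticOnNhd ℂ f (closedBall c R)) (hc : f c ≠ 0)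
    (hb : ∀ z ∈ closedBall c R, ‖f z‖ ≤ M) :
    ∃ s : Multiset ℂ, (∀ ρ ∈ s, ρ ∈ closedBall c r ∧ f ρ = 0) ∧
      (∀ ρ ∈ closedBall c r, f ρ = 0 → ρ ∈ s) ∧
      ∀ z ∈ closedBall c r2, (∀ ρ ∈ s, z ≠ ρ) →
        ‖deriv f z / f z - (s.map (fun ρ => 1 / (z - ρ))).sum‖ ≤
        2 * (Real.log (M / ‖f c‖) + Real.log (M / ‖f c‖) / Real.log (R / r) *
          Real.log (r / (R - r)) + 1) * r1 / (r - r1) / (r1 - r2) := by
  have hr : 0 < r := by linarith
  have hR : 0 < R := by linarith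
  obtain ⟨s, g, hs, hg, hfg, hg0, hcard⟩ := extract hr hrR hM hf hc hb
  refine ⟨s, hs, ?_, ?_⟩
  · intro ρ hρ h0
    rw [hfg ρ] at h0
    by_contra hcon
    have h1 : Pf s ρ ≠ 0 := Pf_ne_zero fun ρ' h' he => hcon (he ▸ h')
    exact mul_ne_zero h1 (hg0 ρ hρ) h0
  intro z hz hzs
  have hzr : z ∈ closedBall c r := closedBall_subset_closedBall (by linarith) hz
  have hzR : z ∈ closedBall c R := closedBall_subset_closedBall hrR.le hzr
  have hcr : c ∈ closedBall c r := mem_closedBall_self hr.le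
  have hcR : c ∈ closedBall c R := mem_closedBall_self hR.le
  have hPz : Pf s z ≠ 0 := Pf_ne_zero hzs
  have hfz : f z ≠ 0 := by rw [hfg z]; exact mul_ne_zero hPz (hg0 z hzr)
  have hfc : 0 < ‖f c‖ := norm_pos_iff.2 hc
  set n := Multiset.card s with hn
  have hlogM : 0 ≤ Real.log (M / ‖f c‖) := Real.log_nonneg (by rw [le_div_iff₀ hfc]; linarith)
  have hRr0 : 0 < R - r := by linarith
  have hq : 1 ≤ r / (R - r) := by rw [le_div_iff₀ hRr0]; linarith
  have hlogq : 0 ≤ Real.log (r / (R - r)) := Real.log_nonneg hq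
  -- bounds for g
  have hgsphere : ∀ w ∈ sphere c R, ‖g w‖ ≤ M / (R - r) ^ n := by
    intro w hw
    have hwR := sphere_subset_closedBall hw
    have h1 : (R - r) ^ n ≤ ‖Pf s w‖ := Pf_norm_ge hRr0.le fun ρ hρ => by
      have h2 := (hs ρ hρ).1
      rw [mem_closedBall, dist_eq_norm] at h2
      rw [mem_sphere, dist_eq_norm] at hw
      have h3 : ‖w - c‖ ≤ ‖w - ρ‖ + ‖ρ - c‖ := by
        calc ‖w - c‖ = ‖(w - ρ) + (ρ - c)‖ := by congr 1; ring
          _ ≤ _ := norm_add_le _ _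
      linarith
    rw [le_div_iff₀ (by positivity)]
    calc ‖g w‖ * (R - r) ^ n ≤ ‖g w‖ * ‖Pf s w‖ := mul_le_mul_of_nonneg_left h1 (norm_nonneg _)
      _ = ‖f w‖ := by rw [hfg w, norm_mul, mul_comm]
      _ ≤ M := hb w hwR
  have hgball : ∀ w ∈ closedBall c R, ‖g w‖ ≤ M / (R - r) ^ n := by
    intro w hw
    refine Complex.norm_le_of_forall_mem_frontier_norm_le (U := ball c R) isBounded_ball ?_ ?_ ?_
    · apply DifferentiableOn.diffContOnCl
      rw [closure_ball c hR.ne']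
      exact fun x hx => (hg x hx).differentiableAt.differentiableWithinAt
    · intro x hx
      rw [frontier_ball c hR.ne'] at hx
      exact hgsphere x hx
    · rwa [closure_ball c hR.ne']
  have hgc : ‖f c‖ / r ^ n ≤ ‖g c‖ := by
    rw [div_le_iff₀ (by positivity)]
    have h1 : ‖Pf s c‖ ≤ r ^ n := Pf_norm_le fun ρ hρ => by
      have h2 := (hs ρ hρ).1
      rw [mem_closedBall, dist_eq_norm, norm_sub_rev] at h2
      exact h2
    calc ‖f c‖ = ‖g c‖ * ‖Pf s c‖ := by rw [hfg c, norm_mul, mul_comm]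
      _ ≤ ‖g c‖ * r ^ n := mul_le_mul_of_nonneg_left h1 (norm_nonneg _)
  set B : ℝ := Real.log (M / ‖f c‖) + n * Real.log (r / (R - r)) with hB
  have hB0 : 0 ≤ B := by positivity
  have hexpB : Real.exp B = M / ‖f c‖ * (r / (R - r)) ^ n := by
    rw [hB, Real.exp_add, Real.exp_log (by positivity), Real.exp_nat_mul,
      Real.exp_log (by positivity)]
  have hgb : ∀ w ∈ closedBall c r, ‖g w‖ ≤ Real.exp B * ‖g c‖ := by
    intro w hw
    refine (hgball w (closedBall_subset_closedBall hrR.le hw)).trans ?_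
    rw [hexpB]
    calc M / (R - r) ^ n = M / ‖f c‖ * (r / (R - r)) ^ n * (‖f c‖ / r ^ n) := by
          rw [div_pow]; field_simp
      _ ≤ _ := mul_le_mul_of_nonneg_left hgc (by positivity)
  have hlg := logDeriv_zero_free hr2 h21 h1r hB0
    (hg.mono (closedBall_subset_closedBall hrR.le)) hg0 hgb hz
  have heq : deriv f z / f z = logDeriv (Pf s) z + logDeriv g z := by
    have h1 : f = fun w => Pf s w * g w := funext hfg
    rw [← logDeriv_apply]
    conv_lhs => rw [h1]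
    exact logDeriv_mul z hPz (hg0 z hzr) (Pf_diff s z) (hg z hzR).differentiableAt
  rw [heq, Pf_logDeriv_eq hzs, add_sub_cancel_left]
  refine hlg.trans ?_
  have h8 : B ≤ Real.log (M / ‖f c‖) + Real.log (M / ‖f c‖) / Real.log (R / r) *
        Real.log (r / (R - r)) := by
    rw [hB]
    have := mul_le_mul_of_nonneg_right hcard hlogq
    linarith
  have h9 : 0 < r - r1 := by linarith
  have h10 : 0 < r1 - r2 := by linarith
  have h11 : 0 < r1 := by linarith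
  gcongr

/-- lower bound for the real part of the logarithmic derivative to the right of one -/
lemma D_re : ∃ K : ℝ, 0 < K ∧ ∀ t σ : ℝ, 1 < σ → σ ≤ 2 →
    (- K * ell t ≤ (deriv Z1 ⟨σ, t⟩ / Z1 ⟨σ, t⟩).re) ∧
    ∀ ρ ∈ closedBall (⟨2, t⟩ : ℂ) (3 / 2), Z1 ρ = 0 →
      (1 / ((⟨σ, t⟩ : ℂ) - ρ)).re - K * ell t ≤ (deriv Z1 ⟨σ, t⟩ / Z1 ⟨σ, t⟩).re := by
  obtain ⟨K0, hK0, hball⟩ := Z1_ball
  set K1 : ℝ := 2 * (K0 + K0 / Real.log (7 / 4 / (3 / 2)) * Real.log (3 / 2 / (7 / 4 - 3 / 2)) + 1) *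
    (11 / 8) / (3 / 2 - 11 / 8) / (11 / 8 - 9 / 8) with hK1
  have hl1 : 0 < Real.log (7 / 4 / (3 / 2)) := Real.log_pos (by norm_num)
  have hl2 : 0 < Real.log (3 / 2 / (7 / 4 - 3 / 2)) := Real.log_pos (by norm_num)
  have hK1pos : 0 < K1 := by
    rw [hK1]
    have : 0 < K0 / Real.log (7 / 4 / (3 / 2)) * Real.log (3 / 2 / (7 / 4 - 3 / 2)) := by positivity
    have h2 : (0 : ℝ) < 3 / 2 - 11 / 8 := by norm_num
    have h3 : (0 : ℝ) < 11 / 8 - 9 / 8 := by norm_num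
    positivity
  refine ⟨K1, hK1pos, fun t σ h1 h2 => ?_⟩
  obtain ⟨M, hM1, hMb, hl0, hlK⟩ := hball t
  have hc : Z1 ⟨2, t⟩ ≠ 0 := Z1_ne_zero (by norm_num)
  have hcb : ‖Z1 ⟨2, t⟩‖ ≤ M := hMb _ (mem_closedBall_self (by norm_num))
  obtain ⟨s, hs1, hs2, hs3⟩ := landau_re (f := Z1) (c := ⟨2, t⟩) (r := 3 / 2) (r1 := 11 / 8)
    (r2 := 9 / 8) (R := 7 / 4) (M := M) (by norm_num) (by norm_num) (by norm_num) (by norm_num)
    (by norm_num) hM1 hcb (fun z _ => Z1_diff.analyticAt z) hc hMb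
  have hz : (⟨σ, t⟩ : ℂ) ∈ closedBall (⟨2, t⟩ : ℂ) (9 / 8) := by
    rw [mem_closedBall, dist_eq_norm]
    have e : (⟨σ, t⟩ : ℂ) - ⟨2, t⟩ = ((σ - 2 : ℝ) : ℂ) := by
      apply Complex.ext <;> simp
    rw [e, Complex.norm_real, Real.norm_eq_abs, abs_le]
    constructor <;> linarith
  have hre : ∀ ρ ∈ s, ρ.re < 1 := by
    intro ρ hρ
    by_contra hcon
    exact Z1_ne_zero (not_lt.1 hcon) (hs1 ρ hρ).2
  have hzne : ∀ ρ ∈ s, (⟨σ, t⟩ : ℂ) ≠ ρ := by
    intro ρ hρ he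
    have := hre ρ hρ
    rw [← he] at this
    simp at this
    linarith
  have hmain := hs3 _ hz hzne
  have hell := one_le_ell t
  have hbd : 2 * (Real.log (M / ‖Z1 ⟨2, t⟩‖) + Real.log (M / ‖Z1 ⟨2, t⟩‖) /
      Real.log (7 / 4 / (3 / 2)) * Real.log (3 / 2 / (7 / 4 - 3 / 2)) + 1) * (11 / 8) /
      (3 / 2 - 11 / 8) / (11 / 8 - 9 / 8) ≤ K1 * ell t := by
    have e1 : Real.log (M / ‖Z1 ⟨2, t⟩‖) + Real.log (M / ‖Z1 ⟨2, t⟩‖) /
      Real.log (7 / 4 / (3 / 2)) * Real.log (3 / 2 / (7 / 4 - 3 / 2)) + 1 ≤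
      (K0 + K0 / Real.log (7 / 4 / (3 / 2)) * Real.log (3 / 2 / (7 / 4 - 3 / 2)) + 1) * ell t := by
      have e2 : Real.log (M / ‖Z1 ⟨2, t⟩‖) /
        Real.log (7 / 4 / (3 / 2)) * Real.log (3 / 2 / (7 / 4 - 3 / 2)) ≤
        (K0 * ell t) / Real.log (7 / 4 / (3 / 2)) * Real.log (3 / 2 / (7 / 4 - 3 / 2)) := by
        gcongr
      have e3 : (K0 * ell t) / Real.log (7 / 4 / (3 / 2)) * Real.log (3 / 2 / (7 / 4 - 3 / 2)) =
        K0 / Real.log (7 / 4 / (3 / 2)) * Real.log (3 / 2 / (7 / 4 - 3 / 2)) * ell t := by ring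
      rw [e3] at e2
      nlinarith
    have h3 : (0 : ℝ) < 3 / 2 - 11 / 8 := by norm_num
    have h4 : (0 : ℝ) < 11 / 8 - 9 / 8 := by norm_num
    calc _ ≤ 2 * ((K0 + K0 / Real.log (7 / 4 / (3 / 2)) * Real.log (3 / 2 / (7 / 4 - 3 / 2)) + 1) *
        ell t) * (11 / 8) / (3 / 2 - 11 / 8) / (11 / 8 - 9 / 8) := by gcongr
      _ = K1 * ell t := by rw [hK1]; ring
  have hmain2 := hmain.trans hbd
  have hsumre : ∀ m : Multiset ℂ, (∀ ρ ∈ m, ρ.re < 1) →
      0 ≤ ((m.map (fun ρ => 1 / ((⟨σ, t⟩ : ℂ) - ρ))).sum).re ∧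
      ∀ ρ ∈ m, (1 / ((⟨σ, t⟩ : ℂ) - ρ)).re ≤ ((m.map (fun ρ => 1 / ((⟨σ, t⟩ : ℂ) - ρ))).sum).re := by
    intro m
    induction m using Multiset.induction_on with
    | empty => intro _; simp
    | cons a m ih =>
      intro h
      have ha := h a (Multiset.mem_cons_self a m)
      obtain ⟨i1, i2⟩ := ih fun ρ hρ => h ρ (Multiset.mem_cons_of_mem hρ)
      have ha2 : 0 ≤ (1 / ((⟨σ, t⟩ : ℂ) - a)).re := by
        rw [one_div, Complex.inv_re]
        apply div_nonneg _ (Complex.normSq_nonneg _)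
        simp only [sub_re]
        linarith
      rw [Multiset.map_cons, Multiset.sum_cons, add_re]
      refine ⟨by linarith, fun ρ hρ => ?_⟩
      rw [Multiset.mem_cons] at hρ
      rcases hρ with rfl | hρ
      · linarith
      · have := i2 ρ hρ
        linarith
  obtain ⟨j1, j2⟩ := hsumre s hre
  have hdiff := (Complex.abs_re_le_norm _).trans hmain2
  rw [sub_re, abs_le] at hdiff
  constructor
  · linarith [hdiff.1]
  · intro ρ hρ h0
    have := j2 ρ (hs2 ρ hρ h0)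
    linarith [hdiff.1]

/-- the 3-4-1 inequality -/
lemma three_four_one {σ : ℝ} (hσ : 1 < σ) (t : ℝ) :
    0 ≤ 3 * (LSeries (fun n => (ArithmeticFunction.vonMangoldt n : ℂ)) (⟨σ, 0⟩ : ℂ)).re +
      4 * (LSeries (fun n => (ArithmeticFunction.vonMangoldt n : ℂ)) (⟨σ, t⟩ : ℂ)).re +
      (LSeries (fun n => (ArithmeticFunction.vonMangoldt n : ℂ)) (⟨σ, 2 * t⟩ : ℂ)).re := by
  have hs : ∀ t : ℝ, LSeriesSummable (fun n => (ArithmeticFunction.vonMangoldt n : ℂ)) (⟨σ, t⟩ : ℂ) :=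
    fun t => ArithmeticFunction.LSeriesSummable_vonMangoldt (by simpa using hσ)
  unfold LSeries
  rw [Complex.re_tsum (hs 0), Complex.re_tsum (hs t), Complex.re_tsum (hs (2 * t))]
  have h0 := (Complex.reCLM.summable (hs 0))
  have h1 := (Complex.reCLM.summable (hs t))
  have h2 := (Complex.reCLM.summable (hs (2 * t)))
  simp only [Complex.reCLM_apply] at h0 h1 h2
  rw [← tsum_mul_left, ← tsum_mul_left, ← Summable.tsum_add (h0.mul_left 3) (h1.mul_left 4),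
    ← Summable.tsum_add ((h0.mul_left 3).add (h1.mul_left 4)) h2]
  refine tsum_nonneg fun n => ?_
  rcases eq_or_ne n 0 with rfl | hn
  · simp
  have hn0 : (n : ℂ) ≠ 0 := by exact_mod_cast hn
  have hnr : (0 : ℝ) < n := by exact_mod_cast Nat.pos_of_ne_zero hn
  set w : ℂ := cexp (-(((t * Real.log n : ℝ) : ℂ) * I)) with hw
  have key : ∀ k : ℕ, LSeries.term (fun n => (ArithmeticFunction.vonMangoldt n : ℂ))
      (⟨σ, k * t⟩ : ℂ) n = ((ArithmeticFunction.vonMangoldt n / (n : ℝ) ^ σ : ℝ) : ℂ) * w ^ k := by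
    intro k
    rw [LSeries.term_of_ne_zero hn]
    have e : (⟨σ, k * t⟩ : ℂ) = (σ : ℂ) + ((k * t : ℝ) : ℂ) * I := by
      apply Complex.ext <;> simp
    rw [e, Complex.cpow_add _ _ hn0]
    have e2 : (n : ℂ) ^ (((k * t : ℝ) : ℂ) * I) = (w ^ k)⁻¹ := by
      rw [hw, ← Complex.exp_nat_mul, ← Complex.exp_neg, Complex.cpow_def_of_ne_zero hn0,
        ← Complex.natCast_log]
      congr 1
      push_cast
      ring
    rw [e2]
    have e3 : (n : ℂ) ^ (σ : ℂ) = (((n : ℝ) ^ σ : ℝ) : ℂ) := by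
      rw [Complex.ofReal_cpow hnr.le]
      simp
    rw [e3]
    push_cast
    rw [← div_div, div_inv_eq_mul]
  have k0 := key 0
  have k1 := key 1
  have k2 := key 2
  simp only [Nat.cast_zero, zero_mul, pow_zero, mul_one, Nat.cast_one, one_mul, pow_one,
    Nat.cast_ofNat] at k0 k1 k2
  rw [k0, k1, k2]
  set A : ℝ := ArithmeticFunction.vonMangoldt n / (n : ℝ) ^ σ with hA
  have hA0 : 0 ≤ A := div_nonneg ArithmeticFunction.vonMangoldt_nonneg (by positivity)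
  have hw1 : w.re ^ 2 + w.im ^ 2 = 1 := by
    have h3 : ‖w‖ = 1 := by
      rw [hw, ← neg_mul, ← Complex.ofReal_neg, Complex.norm_exp_ofReal_mul_I]
    have h4 := Complex.sq_norm w
    rw [h3, Complex.normSq_apply] at h4
    nlinarith
  have e4 : ((A : ℂ)).re = A := Complex.ofReal_re A
  have e5 : ((A : ℂ) * w).re = A * w.re := by simp
  have e6 : ((A : ℂ) * w ^ 2).re = A * (w.re ^ 2 - w.im ^ 2) := by
    rw [Complex.re_ofReal_mul, sq, Complex.mul_re]
    ring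
  rw [e4, e5, e6]
  have e7 : 3 * A + 4 * (A * w.re) + A * (w.re ^ 2 - w.im ^ 2) = 2 * A * (1 + w.re) ^ 2 := by
    have : w.im ^ 2 = 1 - w.re ^ 2 := by linarith
    rw [this]
    ring
  rw [e7]
  positivity

end Pool.Agent.W66
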